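import Pool.Agent.H184J.Stmts

set_option autoImplicit false

namespace H184J

open Finset

variable {n : ℕ}

lemma fl_fl (x : Q n) (i : Fin n) : fl (fl x i) i = x := by
  unfold fl
  simp

lemma fl_same (x : Q n) (i : Fin n) : fl x i i = !x i := by simp [fl]

lemma fl_of_ne (x : Q n) {i j : Fin n} (h : j ≠ i) : fl x i j = x j := by
  simp [fl, Function.update_of_ne h]

lemma fl_comm (x : Q n) (i j : Fin n) : fl (fl x i) j = fl (fl x j) i := by
  rcases eq_or_ne i j with rfl | h
  · rfl
  · unfold fl
    rw [Function.update_of_ne h.symm, Function.update_of_ne h, Function.update_comm h]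

lemma fl_update_same (x : Q n) (a : Fin n) (b : Bool) :
    Function.update (fl x a) a b = Function.update x a b := by simp [fl]

lemma fl_update (x : Q n) {a j : Fin n} (b : Bool) (h : j ≠ a) :
    Function.update (fl x j) a b = fl (Function.update x a b) j := by
  unfold fl
  rw [Function.update_of_ne h, Function.update_comm h.symm]

/-- flipping as an equivalence -/
def flE (i : Fin n) : Q n ≃ Q n where
  toFun x := fl x i
  invFun x := fl x i
  left_inv x := fl_fl x i
  right_inv x := fl_fl x i

lemma mem_Sens {f : Q n → Bool} {x : Q n} {i : Fin n} : i ∈ Sens f x ↔ f (fl x i) ≠ f x := by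
  simp [Sens]

lemma mem_Sens_fl {f : Q n → Bool} {x : Q n} {i : Fin n} :
    i ∈ Sens f (fl x i) ↔ i ∈ Sens f x := by
  rw [mem_Sens, mem_Sens, fl_fl]
  exact ne_comm

lemma mem_Rel {f : Q n → Bool} {i : Fin n} : i ∈ Rel f ↔ ∃ x, i ∈ Sens f x := by
  simp [Rel]

lemma Sens_subset_Rel (f : Q n → Bool) (x : Q n) : Sens f x ⊆ Rel f :=
  fun _ hi => mem_Rel.2 ⟨x, hi⟩

lemma mem_Sens_res {f : Q n → Bool} {x : Q n} {a j : Fin n} {b : Bool} (h : j ≠ a) :
    j ∈ Sens (res f a b) x ↔ j ∈ Sens f (Function.update x a b) := by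
  rw [mem_Sens, mem_Sens]
  unfold res
  rw [fl_update x b h]

lemma notMem_Sens_res {f : Q n → Bool} {x : Q n} {a : Fin n} {b : Bool} :
    a ∉ Sens (res f a b) x := by
  rw [mem_Sens]
  unfold res
  rw [fl_update_same]
  simp

lemma Sens_res_subset (f : Q n → Bool) (x : Q n) (a : Fin n) (b : Bool) :
    Sens (res f a b) x ⊆ (Sens f (Function.update x a b)).erase a := by
  intro j hj
  have hja : j ≠ a := by
    rintro rfl
    exact notMem_Sens_res hj
  rw [mem_erase]
  exact ⟨hja, (mem_Sens_res hja).1 hj⟩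

lemma SB_res {f : Q n → Bool} {k : ℕ} (h : SB f k) (a : Fin n) (b : Bool) :
    SB (res f a b) k := fun x =>
  (card_le_card ((Sens_res_subset f x a b).trans (erase_subset _ _))).trans (h _)

lemma Rel_res_subset (f : Q n → Bool) (a : Fin n) (b : Bool) :
    Rel (res f a b) ⊆ (Rel f).erase a := by
  intro j hj
  obtain ⟨x, hx⟩ := mem_Rel.1 hj
  have := Sens_res_subset f x a b hx
  rw [mem_erase] at this ⊢
  exact ⟨this.1, Sens_subset_Rel _ _ this.2⟩

lemma card_Rel_res_lt {f : Q n → Bool} {a : Fin n} (ha : a ∈ Rel f) (b : Bool) :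
    (Rel (res f a b)).card < (Rel f).card :=
  lt_of_le_of_lt (card_le_card (Rel_res_subset f a b)) (card_erase_lt_of_mem ha)

/-! ### expectations -/

lemma E_add (u v : Q n → ℝ) : E (fun x => u x + v x) = E u + E v := by
  unfold E
  rw [sum_add_distrib, add_div]

lemma E_sub (u v : Q n → ℝ) : E (fun x => u x - v x) = E u - E v := by
  unfold E
  rw [sum_sub_distrib, sub_div]

lemma E_mul_left (c : ℝ) (u : Q n → ℝ) : E (fun x => c * u x) = c * E u := by
  unfold E
  rw [← mul_sum, mul_div_assoc]

lemma E_sum {ι : Type} (s : Finset ι) (u : ι → Q n → ℝ) :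
    E (fun x => ∑ i ∈ s, u i x) = ∑ i ∈ s, E (u i) := by
  unfold E
  rw [sum_comm, sum_div]

lemma E_nonneg {u : Q n → ℝ} (h : ∀ x, 0 ≤ u x) : 0 ≤ E u :=
  div_nonneg (sum_nonneg fun x _ => h x) (by positivity)

lemma E_mono {u v : Q n → ℝ} (h : ∀ x, u x ≤ v x) : E u ≤ E v :=
  div_le_div_of_nonneg_right (sum_le_sum fun x _ => h x) (by positivity)

lemma E_const (c : ℝ) : E (fun _ : Q n => c) = c := by
  unfold E
  rw [sum_const, card_univ, Fintype.card_fun, Fintype.card_bool, Fintype.card_fin, nsmul_eq_mul]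
  push_cast
  field_simp

lemma E_fl (u : Q n → ℝ) (i : Fin n) : E (fun x => u (fl x i)) = E u := by
  unfold E
  congr 1
  exact Equiv.sum_comp (flE i) u

lemma update_pair (x : Q n) (a : Fin n) (u : Q n → ℝ) :
    u (Function.update x a false) + u (Function.update x a true) = u x + u (fl x a) := by
  cases h : x a
  · have h1 : Function.update x a false = x := by rw [← h]; exact Function.update_eq_self a x
    have h2 : fl x a = Function.update x a true := by unfold fl; rw [h]; rfl
    rw [h1, h2]
  · have h1 : Function.update x a true = x := by rw [← h]; exact Function.update_eq_self a x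
    have h2 : fl x a = Function.update x a false := by unfold fl; rw [h]; rfl
    rw [h1, h2, add_comm]

lemma E_update (u : Q n → ℝ) (a : Fin n) :
    E u = (1 / 2) * (E (fun x => u (Function.update x a false)) +
      E (fun x => u (Function.update x a true))) := by
  rw [← E_add]
  have : (fun x => u (Function.update x a false) + u (Function.update x a true)) =
      fun x => u x + u (fl x a) := by
    funext x
    exact update_pair x a u
  rw [this, E_add, E_fl]
  ring

lemma Inf_nonneg (f : Q n → Bool) (i : Fin n) : 0 ≤ Inf f i :=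
  E_nonneg fun x => by split_ifs <;> norm_num

lemma Inf_le_one (f : Q n → Bool) (i : Fin n) : Inf f i ≤ 1 := by
  have : Inf f i ≤ E (fun _ : Q n => (1 : ℝ)) := E_mono fun x => by split_ifs <;> norm_num
  rwa [E_const] at this

lemma Inf_eq_zero {f : Q n → Bool} {i : Fin n} (h : i ∉ Rel f) : Inf f i = 0 := by
  unfold Inf
  have : (fun x : Q n => if i ∈ Sens f x then (1 : ℝ) else 0) = fun _ => 0 := by
    funext x
    rw [if_neg]
    exact fun hx => h (Sens_subset_Rel f x hx)
  rw [this, E_const]

lemma tot_eq_sum (f : Q n → Bool) : tot f = ∑ i, Inf f i := by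
  unfold tot Inf
  rw [← E_sum]
  congr 1
  funext x
  rw [sum_boole]
  simp

lemma sum_Inf (f : Q n → Bool) (V : Finset (Fin n)) :
    ∑ i ∈ V, Inf f i = E (fun x => ((V ∩ Sens f x).card : ℝ)) := by
  unfold Inf
  rw [← E_sum]
  congr 1
  funext x
  rw [sum_boole]
  congr 2

lemma tot_nonneg (f : Q n → Bool) : 0 ≤ tot f := E_nonneg fun x => Nat.cast_nonneg _

lemma tot_le {f : Q n → Bool} {k : ℕ} (h : SB f k) : tot f ≤ k := by
  have : tot f ≤ E (fun _ : Q n => (k : ℝ)) := E_mono fun x => by exact_mod_cast h x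
  rwa [E_const] at this

lemma Inf_res {f : Q n → Bool} {a j : Fin n} (h : j ≠ a) :
    Inf f j = (1 / 2) * (Inf (res f a false) j + Inf (res f a true) j) := by
  unfold Inf
  rw [E_update _ a]
  simp only [mem_Sens_res h]

lemma Inf_res_self (f : Q n → Bool) (a : Fin n) (b : Bool) : Inf (res f a b) a = 0 := by
  apply Inf_eq_zero
  intro h
  have := Rel_res_subset f a b h
  simp at this

lemma tot_res (f : Q n → Bool) (a : Fin n) :
    tot f = Inf f a + (1 / 2) * (tot (res f a false) + tot (res f a true)) := by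
  rw [tot_eq_sum, tot_eq_sum, tot_eq_sum]
  rw [← add_sum_erase univ _ (mem_univ a), ← add_sum_erase univ _ (mem_univ a),
    ← add_sum_erase univ _ (mem_univ a), Inf_res_self, Inf_res_self]
  have : ∑ x ∈ univ.erase a, Inf f x =
      (1 / 2) * (∑ x ∈ univ.erase a, Inf (res f a false) x +
        ∑ x ∈ univ.erase a, Inf (res f a true) x) := by
    rw [← sum_add_distrib, mul_sum]
    exact sum_congr rfl fun j hj => Inf_res (mem_erase.1 hj).1
  rw [this]
  ring

lemma le_r {f : Q n → Bool} {x : Q n} {i : Fin n} (h : i ∈ Sens f x) :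
    (Sens f x).card + (Sens f (fl x i)).card - 2 ≤ r f i := by
  unfold r
  exact le_sup (f := fun x => (Sens f x).card + (Sens f (fl x i)).card - 2)
    (mem_filter.2 ⟨mem_univ x, h⟩)

lemma card_pos_of_mem {f : Q n → Bool} {x : Q n} {i : Fin n} (h : i ∈ Sens f x) :
    1 ≤ (Sens f x).card := card_pos.2 ⟨i, h⟩

lemma card_pos_of_mem' {f : Q n → Bool} {x : Q n} {i : Fin n} (h : i ∈ Sens f x) :
    1 ≤ (Sens f (fl x i)).card := card_pos.2 ⟨i, mem_Sens_fl.2 h⟩

lemma card_le_r {f : Q n → Bool} {x : Q n} {i : Fin n} (h : i ∈ Sens f x) :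
    (Sens f x).card ≤ r f i + 1 := by
  have h1 := le_r h
  have h2 := card_pos_of_mem h
  have h3 := card_pos_of_mem' h
  omega

lemma r_le {f : Q n → Bool} {k : ℕ} (h : SB f k) (i : Fin n) : r f i ≤ 2 * k := by
  unfold r
  apply Finset.sup_le
  intro x _
  have h1 := h x
  have h2 := h (fl x i)
  omega

/-- flipping inside an incidence sum -/
lemma E_inc_fl (f : Q n → Bool) (V : Finset (Fin n)) (h : Q n → ℝ) :
    E (fun x => ∑ i ∈ V ∩ Sens f x, h (fl x i)) =
      E (fun x => ∑ i ∈ V ∩ Sens f x, h x) := by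
  have key : ∀ g : Fin n → Q n → ℝ, E (fun x => ∑ i ∈ V ∩ Sens f x, g i x) =
      ∑ i ∈ V, E (fun x => if i ∈ Sens f x then g i x else 0) := by
    intro g
    rw [← E_sum]
    congr 1
    funext x
    rw [← sum_filter]
    apply sum_congr _ fun _ _ => rfl
    ext i
    simp
  rw [key (fun i x => h (fl x i)), key (fun _ x => h x)]
  apply sum_congr rfl
  intro i _
  rw [← E_fl (fun x => if i ∈ Sens f x then h x else 0) i]
  congr 1
  funext x
  simp only [mem_Sens_fl]

end H184J
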