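import Mathlib

set_option autoImplicit false

/-!
Definitions for: a Boolean function of sensitivity `s` depends on `O(4^s)` variables.
-/

namespace H184J

open Finset

/-- the discrete cube -/
abbrev Q (n : ℕ) := Fin n → Bool

/-- flip coordinate `i` -/
def fl {n : ℕ} (x : Q n) (i : Fin n) : Q n := Function.update x i (!x i)

/-- the set of sensitive coordinates of `f` at `x` -/
def Sens {n : ℕ} (f : Q n → Bool) (x : Q n) : Finset (Fin n) :=
  univ.filter (fun i => f (fl x i) ≠ f x)

/-- `f` has sensitivity at most `k` -/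
def SB {n : ℕ} (f : Q n → Bool) (k : ℕ) : Prop := ∀ x, (Sens f x).card ≤ k

/-- the restriction of `f` by `x_a = b`, as a function on the whole cube -/
def res {n : ℕ} (f : Q n → Bool) (a : Fin n) (b : Bool) : Q n → Bool :=
  fun x => f (Function.update x a b)

/-- expectation over the cube -/
noncomputable def E {n : ℕ} (u : Q n → ℝ) : ℝ := (∑ x, u x) / 2 ^ n

/-- the influence of coordinate `i` -/
noncomputable def Inf {n : ℕ} (f : Q n → Bool) (i : Fin n) : ℝ :=
  E (fun x => if i ∈ Sens f x then 1 else 0)

/-- the total influence (average sensitivity) -/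
noncomputable def tot {n : ℕ} (f : Q n → Bool) : ℝ := E (fun x => ((Sens f x).card : ℝ))

/-- the relevant coordinates -/
def Rel {n : ℕ} (f : Q n → Bool) : Finset (Fin n) :=
  univ.filter (fun i => ∃ x, i ∈ Sens f x)

/-- the maximum of `s(x) + s(x^i) - 2` over the edges in direction `i` on which `f` changes -/
def r {n : ℕ} (f : Q n → Bool) (i : Fin n) : ℕ :=
  (univ.filter (fun x => i ∈ Sens f x)).sup
    (fun x => (Sens f x).card + (Sens f (fl x i)).card - 2)

/-- the main quantity -/
noncomputable def Psi {n : ℕ} (f : Q n → Bool) : ℝ := ∑ i ∈ Rel f, (1 / 2 : ℝ) ^ (r f i)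

/-- `f` has a decision tree of depth at most `D` -/
inductive DT {n : ℕ} : ℕ → (Q n → Bool) → Prop
  | const (D : ℕ) (f : Q n → Bool) (h : ∀ x y, f x = f y) : DT D f
  | query (D : ℕ) (f : Q n → Bool) (a : Fin n) (h0 : DT D (res f a false))
      (h1 : DT D (res f a true)) : DT (D + 1) f

/-- decision trees (only the queries) -/
inductive Tr (n : ℕ)
  | leaf : Tr n
  | node : Fin n → Tr n → Tr n → Tr n

/-- `bef T x i j`: on the path of `x` in `T`, `j` is queried before `i` (or `j` is queried and `i`
is not queried); the left subtree is the one for `x a = false`. -/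
def bef {n : ℕ} : Tr n → Q n → Fin n → Fin n → Prop
  | Tr.leaf, _, _, _ => False
  | Tr.node a l t, x, i, j =>
      a ≠ i ∧ (a = j ∨ (x a = false ∧ bef l x i j) ∨ (x a = true ∧ bef t x i j))

/-- every query is to a variable of influence at least `θ`; at a leaf all influences are `< θ` -/
def Good {n : ℕ} (θ : ℝ) : (Q n → Bool) → Tr n → Prop
  | f, Tr.leaf => ∀ i, Inf f i < θ
  | f, Tr.node a l t => θ ≤ Inf f a ∧ Good θ (res f a false) l ∧ Good θ (res f a true) t

open Classical in
/-- the number of `j` before `i` which leave the support of the derivative in direction `i` -/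
noncomputable def A {n : ℕ} (T : Tr n) (f : Q n → Bool) (i : Fin n) : ℝ :=
  E (fun x => if i ∈ Sens f x then
    ((univ.filter (fun j => bef T x i j ∧ i ∉ Sens f (fl x j))).card : ℝ) else 0)

/-- expected number of (unordered) pairs of sensitive variables both in `V` -/
noncomputable def X2 {n : ℕ} (f : Q n → Bool) (V : Finset (Fin n)) : ℝ :=
  E (fun x => ((V ∩ Sens f x).card * ((V ∩ Sens f x).card - 1 : ℝ)) / 2)

/-- expected number of pairs of sensitive variables, exactly one of them in `V` -/
noncomputable def Y2 {n : ℕ} (f : Q n → Bool) (V : Finset (Fin n)) : ℝ :=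
  E (fun x => ((V ∩ Sens f x).card : ℝ) * ((Sens f x \ V).card : ℝ))

/-- the indicator point of a set -/
def pt {n : ℕ} (T : Finset (Fin n)) : Q n := fun i => decide (i ∈ T)

/-- 0/1 value -/
def v01 (b : Bool) : ℤ := if b then 1 else 0

/-- coefficient of the multilinear polynomial of `f` -/
def cf {n : ℕ} (f : Q n → Bool) (S : Finset (Fin n)) : ℤ :=
  ∑ T ∈ S.powerset, (-1) ^ (S.card - T.card) * v01 (f (pt T))

end H184J
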