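import Pool.Agent.H184J.Stmts

set_option autoImplicit false

/-!
# Task GL: the degree is at most the square of the sensitivity, from Huang's theorem (helper875)
-/

namespace H184J.GL

open Finset H184J

variable {n m : ℕ}

/-- extension of a point of the small cube by `false` -/
def L {S : Finset (Fin n)} (e : Fin (m + 1) ≃ S) (q : Q (m + 1)) : Q n :=
  fun j => if h : j ∈ S then q (e.symm ⟨j, h⟩) else false

/-- its support -/
def Tq {S : Finset (Fin n)} (e : Fin (m + 1) ≃ S) (q : Q (m + 1)) : Finset (Fin n) :=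
  univ.filter (fun j => L e q j = true)

theorem pt_Tq {S : Finset (Fin n)} (e : Fin (m + 1) ≃ S) (q : Q (m + 1)) :
    pt (Tq e q) = L e q := by
  funext j
  simp [pt, Tq]

theorem L_e {S : Finset (Fin n)} (e : Fin (m + 1) ≃ S) (q : Q (m + 1)) (i : Fin (m + 1)) :
    L e q (e i) = q i := by
  simp [L]

theorem L_not {S : Finset (Fin n)} (e : Fin (m + 1) ≃ S) (q : Q (m + 1)) {j : Fin n} (h : j ∉ S) :
    L e q j = false := by
  simp [L, h]

theorem L_fl {S : Finset (Fin n)} (e : Fin (m + 1) ≃ S) (q : Q (m + 1)) (i : Fin (m + 1)) :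
    L e (fl q i) = fl (L e q) (e i) := by
  funext j
  by_cases h : j ∈ S
  · obtain ⟨i', hi'⟩ := e.surjective ⟨j, h⟩
    have hj : j = (e i' : Fin n) := by rw [hi']
    rw [hj, L_e]
    unfold fl
    by_cases hii : i' = i
    · subst hii
      rw [Function.update_self, Function.update_self, L_e]
    · have h1 : (e i' : Fin n) ≠ e i := fun h2 => hii (e.injective (Subtype.ext h2))
      rw [Function.update_of_ne hii, Function.update_of_ne h1, L_e]
  · have h1 : j ≠ e i := fun h2 => h (h2 ▸ (e i).2)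
    rw [L_not e _ h]
    unfold fl
    rw [Function.update_of_ne h1, L_not e _ h]

theorem Tq_subset {S : Finset (Fin n)} (e : Fin (m + 1) ≃ S) (q : Q (m + 1)) : Tq e q ⊆ S := by
  intro j hj
  rw [Tq, mem_filter] at hj
  by_contra h
  rw [L_not e q h] at hj
  exact absurd hj.2 (by simp)

theorem mem_Tq {S : Finset (Fin n)} (e : Fin (m + 1) ≃ S) (q : Q (m + 1)) (j : Fin n) :
    j ∈ Tq e q ↔ L e q j = true := by
  simp [Tq]

/-- the sign -/
def sg {S : Finset (Fin n)} (e : Fin (m + 1) ≃ S) (q : Q (m + 1)) : ℤ := (-1) ^ (Tq e q).card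

theorem sg_fl {S : Finset (Fin n)} (e : Fin (m + 1) ≃ S) (q : Q (m + 1)) (i : Fin (m + 1)) :
    sg e (fl q i) = - sg e q := by
  unfold sg
  by_cases hq : q i = true
  · have h1 : Tq e (fl q i) = (Tq e q).erase (e i) := by
      ext j
      rw [mem_erase, mem_Tq, mem_Tq, L_fl]
      by_cases hj : j = e i
      · subst hj
        simp [fl, L_e, hq]
      · simp [fl, hj]
    have h2 : (e i : Fin n) ∈ Tq e q := by rw [mem_Tq, L_e, hq]
    have h3 : (Tq e q).card = ((Tq e q).erase (e i)).card + 1 := (card_erase_add_one h2).symm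
    rw [h1, h3, pow_succ]
    ring
  · have hq' : q i = false := by simpa using hq
    have h1 : Tq e (fl q i) = insert (e i : Fin n) (Tq e q) := by
      ext j
      rw [mem_insert, mem_Tq, mem_Tq, L_fl]
      by_cases hj : j = e i
      · subst hj
        simp [fl, L_e, hq']
      · simp [fl, hj]
    have h2 : (e i : Fin n) ∉ Tq e q := by rw [mem_Tq, L_e, hq']; simp
    rw [h1, card_insert_of_notMem h2, pow_succ]
    ring

theorem fl_fl (q : Q (m + 1)) (i : Fin (m + 1)) : fl (fl q i) i = q := by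
  funext j
  unfold fl
  by_cases h : j = i
  · subst h; simp
  · simp [Function.update_of_ne h]

theorem sum_sg {S : Finset (Fin n)} (e : Fin (m + 1) ≃ S) : ∑ q : Q (m + 1), sg e q = 0 := by
  have h : ∑ q : Q (m + 1), sg e q = ∑ q : Q (m + 1), sg e (fl q 0) := by
    refine (Fintype.sum_equiv ⟨fun q => fl q 0, fun q => fl q 0, fun q => fl_fl q 0,
      fun q => fl_fl q 0⟩ _ _ fun q => ?_)
    change sg e q = sg e (fl (fl q 0) 0)
    rw [fl_fl]
  simp only [sg_fl, sum_neg_distrib] at h
  omega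

theorem Tq_of {S : Finset (Fin n)} (e : Fin (m + 1) ≃ S) {T : Finset (Fin n)} (hT : T ⊆ S) :
    Tq e (fun i => decide ((e i : Fin n) ∈ T)) = T := by
  ext j
  rw [mem_Tq]
  by_cases hj : j ∈ S
  · simp [L, hj]
  · rw [L_not e _ hj]
    simp only [Bool.false_eq_true, false_iff]
    exact fun h => hj (hT h)

theorem cf_eq {S : Finset (Fin n)} (e : Fin (m + 1) ≃ S) (f : Q n → Bool) :
    cf f S = (-1) ^ S.card * ∑ q : Q (m + 1), sg e q * v01 (f (L e q)) := by
  unfold cf
  rw [mul_sum]
  refine sum_bij' (fun T _ => fun i => decide ((e i : Fin n) ∈ T)) (fun q _ => Tq e q) ?_ ?_ ?_ ?_ ?_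
  · intro T _; exact mem_univ _
  · intro q _; rw [mem_powerset]; exact Tq_subset e q
  · intro T hT
    rw [mem_powerset] at hT
    exact Tq_of e hT
  · intro q _
    funext i
    simp [mem_Tq, L_e]
  · intro T hT
    rw [mem_powerset] at hT
    rw [← pt_Tq, Tq_of e hT]
    unfold sg
    rw [Tq_of e hT]
    have h1 : T.card ≤ S.card := card_le_card hT
    obtain ⟨d, hd⟩ := Nat.exists_eq_add_of_le h1
    have h2 : S.card - T.card = d := by omega
    rw [h2, hd, pow_add]
    have h3 : ((-1 : ℤ) ^ T.card) * ((-1 : ℤ) ^ T.card) = 1 := by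
      rw [← mul_pow]; norm_num
    calc (-1 : ℤ) ^ d * v01 (f (pt T))
        = (((-1 : ℤ) ^ T.card) * ((-1 : ℤ) ^ T.card)) * ((-1 : ℤ) ^ d * v01 (f (pt T))) := by
          rw [h3, one_mul]
      _ = _ := by ring

/-- the signed value -/
def sv {S : Finset (Fin n)} (e : Fin (m + 1) ≃ S) (f : Q n → Bool) (q : Q (m + 1)) : ℤ :=
  sg e q * (2 * v01 (f (L e q)) - 1)

theorem sv_sq {S : Finset (Fin n)} (e : Fin (m + 1) ≃ S) (f : Q n → Bool) (q : Q (m + 1)) :
    sv e f q = 1 ∨ sv e f q = -1 := by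
  unfold sv sg
  rcases neg_one_pow_eq_or ℤ (Tq e q).card with h | h <;> rw [h] <;>
    cases f (L e q) <;> simp [v01]

theorem sum_sv {S : Finset (Fin n)} (e : Fin (m + 1) ≃ S) (f : Q n → Bool) (h : cf f S ≠ 0) :
    ∑ q : Q (m + 1), sv e f q ≠ 0 := by
  have h1 : ∑ q : Q (m + 1), sv e f q = 2 * ∑ q : Q (m + 1), sg e q * v01 (f (L e q)) := by
    have h2 : ∀ q : Q (m + 1), sv e f q = 2 * (sg e q * v01 (f (L e q))) - sg e q := by
      intro q; unfold sv; ring
    simp only [h2, sum_sub_distrib, sum_sg, sub_zero, mul_sum]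
  rw [h1]
  intro h3
  apply h
  rw [cf_eq e f]
  have h4 : ∑ q : Q (m + 1), sg e q * v01 (f (L e q)) = 0 := by omega
  rw [h4, mul_zero]

/-- neighbours in the same class are sensitive directions -/
theorem sens_of {S : Finset (Fin n)} (e : Fin (m + 1) ≃ S) (f : Q n → Bool) (q : Q (m + 1))
    (i : Fin (m + 1)) (h : sv e f (fl q i) = sv e f q) : (e i : Fin n) ∈ Sens f (L e q) := by
  unfold Sens
  rw [mem_filter]
  refine ⟨mem_univ _, fun h1 => ?_⟩
  rw [← L_fl] at h1
  unfold sv at h
  rw [sg_fl, h1] at h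
  rcases sv_sq e f q with h2 | h2 <;> unfold sv at h2 <;> linarith

theorem class_bound (hH : TaskHuang) {S : Finset (Fin n)} (e : Fin (m + 1) ≃ S) (f : Q n → Bool)
    (k : ℕ) (hk : SB f k) (c : ℤ)
    (hc : 2 ^ m < (univ.filter (fun q : Q (m + 1) => sv e f q = c)).card) : m + 1 ≤ k ^ 2 := by
  obtain ⟨q, hq, hm⟩ := hH m _ hc
  refine hm.trans (Nat.pow_le_pow_left ?_ 2)
  refine le_trans ?_ (hk (L e q))
  rw [mem_filter] at hq
  refine card_le_card_of_injOn (fun i => (e i : Fin n)) ?_ ?_
  · intro i hi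
    rw [coe_filter] at hi
    have hi2 := hi.2
    rw [mem_filter] at hi2
    exact sens_of e f q i (hi2.2.trans hq.2.symm)
  · intro i _ j _ hij
    exact e.injective (Subtype.ext hij)

theorem taskGL : TaskGL := by
  intro hH n k f S hk hS
  rcases Nat.eq_zero_or_pos S.card with h0 | h0
  · rw [h0]; exact Nat.zero_le _
  obtain ⟨m, hm⟩ : ∃ m, S.card = m + 1 := ⟨S.card - 1, by omega⟩
  rw [hm]
  let e : Fin (m + 1) ≃ S := (S.equivFinOfCardEq hm).symm
  have hsum := sum_sv e f hS
  set P : Finset (Q (m + 1)) := univ.filter (fun q => sv e f q = 1) with hP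
  set N : Finset (Q (m + 1)) := univ.filter (fun q => sv e f q = -1) with hN
  have hdisj : Disjoint P N := by
    rw [Finset.disjoint_left]
    intro q h1 h2
    rw [hP, mem_filter] at h1
    rw [hN, mem_filter] at h2
    have h3 := h1.2
    rw [h2.2] at h3
    norm_num at h3
  have hun : P ∪ N = univ := by
    ext q
    rw [mem_union, hP, hN, mem_filter, mem_filter]
    simp only [mem_univ, true_and, iff_true]
    exact sv_sq e f q
  have hcard : P.card + N.card = 2 ^ (m + 1) := by
    rw [← card_union_of_disjoint hdisj, hun, card_univ]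
    simp
  have hval : ∑ q : Q (m + 1), sv e f q = (P.card : ℤ) - N.card := by
    rw [← hun, sum_union hdisj]
    have h1 : ∑ q ∈ P, sv e f q = ∑ q ∈ P, (1 : ℤ) := by
      refine sum_congr rfl fun q hq => ?_
      rw [hP, mem_filter] at hq
      exact hq.2
    have h2 : ∑ q ∈ N, sv e f q = ∑ q ∈ N, (-1 : ℤ) := by
      refine sum_congr rfl fun q hq => ?_
      rw [hN, mem_filter] at hq
      exact hq.2
    rw [h1, h2]
    simp
    ring
  rw [hval] at hsum
  rw [pow_succ] at hcard
  by_cases hPm : 2 ^ m < P.card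
  · exact class_bound hH e f k hk 1 hPm
  · refine class_bound hH e f k hk (-1) ?_
    change 2 ^ m < N.card
    have h1 : P.card ≠ N.card := by
      intro h
      apply hsum
      rw [h, sub_self]
    omega

end H184J.GL
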