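/-
Copyright (c) 2019 Reid Barton, Johan Commelin, Jesse Michael Han, Chris Hughes, Robert Y. Lewis,
Patrick Massot. All rights reserved.
Released under Apache 2.0 license as described in the file LICENSE.
Authors: Reid Barton, Johan Commelin, Jesse Michael Han, Chris Hughes, Robert Y. Lewis,
  Patrick Massot
-/
import Mathlib

/-!
# Huang's sensitivity theorem

A formalization of Hao Huang's sensitivity theorem: in the hypercube of
dimension n ≥ 1, if one colors more than half the vertices then at least one
vertex has at least √n colored neighbors.

A fun summer collaboration by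
Reid Barton, Johan Commelin, Jesse Michael Han, Chris Hughes, Robert Y. Lewis, and Patrick Massot,
based on Don Knuth's account of the story
(https://www.cs.stanford.edu/~knuth/papers/huang.pdf),
using the Lean theorem prover (https://leanprover.github.io/),
by Leonardo de Moura at Microsoft Research, and his collaborators
(https://leanprover.github.io/people/),
and using Lean's user maintained mathematics library
(https://github.com/leanprover-community/mathlib).

The project was developed at https://github.com/leanprover-community/lean-sensitivity and is now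
archived at https://github.com/leanprover-community/mathlib/blob/master/archive/sensitivity.lean
-/

namespace H184J.Huang

/-! The next two lines assert we do not want to give a constructive proof,
but rather use classical logic. -/
noncomputable section


open Bool Finset Fintype Function LinearMap Module Module.DualBases

/-!
### The hypercube

Notations:
- `ℕ` denotes natural numbers (including zero).
- `Fin n` = {0, ⋯ , n - 1}.
- `Bool` = {`true`, `false`}.
-/


/-- The hypercube in dimension `n`. -/
abbrev Q (n : ℕ) :=
  Fin n → Bool

/-- The projection from `Q n.succ` to `Q n` forgetting the first value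
(i.e. the image of zero). -/
def π {n : ℕ} : Q n.succ → Q n := fun p => p ∘ Fin.succ

namespace Q

@[ext]
theorem ext {n} {f g : Q n} (h : ∀ x, f x = g x) : f = g := funext h

/-! `n` will always denote a natural number. -/

variable (n : ℕ)

/-- `Q 0` has a unique element. -/
instance : Unique (Q 0) :=
  ⟨⟨fun _ => true⟩, by intro; ext x; fin_cases x⟩

/-- `Q n` has 2^n elements. -/
theorem card : card (Q n) = 2 ^ n := by simp

/-! Until the end of this namespace, `n` will be an implicit argument (still
a natural number). -/

variable {n}

theorem succ_n_eq (p q : Q n.succ) : p = q ↔ p 0 = q 0 ∧ π p = π q := by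
  constructor
  · rintro rfl; exact ⟨rfl, rfl⟩
  · rintro ⟨h₀, h⟩
    ext x
    by_cases hx : x = 0
    · rwa [hx]
    · rw [← Fin.succ_pred x hx]
      convert! congr_fun h (Fin.pred x hx)

/-- The adjacency relation defining the graph structure on `Q n`:
`p.adjacent q` if there is an edge from `p` to `q` in `Q n`. -/
def adjacent {n : ℕ} (p : Q n) : Set (Q n) := { q | ∃! i, p i ≠ q i }

/-- In `Q 0`, no two vertices are adjacent. -/
theorem not_adjacent_zero (p q : Q 0) : q ∉ p.adjacent := by rintro ⟨v, _⟩; apply finZeroElim v

/-- If `p` and `q` in `Q n.succ` have different values at zero then they are adjacent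
iff their projections to `Q n` are equal. -/
theorem adj_iff_proj_eq {p q : Q n.succ} (h₀ : p 0 ≠ q 0) : q ∈ p.adjacent ↔ π p = π q := by
  constructor
  · rintro ⟨i, _, h_uni⟩
    ext x; by_contra hx
    apply Fin.succ_ne_zero x
    rw [h_uni _ hx, h_uni _ h₀]
  · intro heq
    use 0, h₀
    intro y hy
    contrapose! hy
    rw [← Fin.succ_pred _ hy]
    apply congr_fun heq

/-- If `p` and `q` in `Q n.succ` have the same value at zero then they are adjacent
iff their projections to `Q n` are adjacent. -/
theorem adj_iff_proj_adj {p q : Q n.succ} (h₀ : p 0 = q 0) :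
    q ∈ p.adjacent ↔ π q ∈ (π p).adjacent := by
  constructor
  · rintro ⟨i, h_eq, h_uni⟩
    have h_i : i ≠ 0 := fun h_i => absurd h₀ (by rwa [h_i] at h_eq)
    use i.pred h_i,
      show p (Fin.succ (Fin.pred i _)) ≠ q (Fin.succ (Fin.pred i _)) by rwa [Fin.succ_pred]
    intro y hy
    simp [Eq.symm (h_uni _ hy)]
  · rintro ⟨i, h_eq, h_uni⟩
    use i.succ, h_eq
    intro y hy
    rw [← Fin.pred_inj (ha := (?ha : y ≠ 0)) (hb := (?hb : i.succ ≠ 0)),
      Fin.pred_succ]
    case ha =>
      contrapose hy
      rw [hy, h₀]
    case hb =>
      apply Fin.succ_ne_zero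
    apply h_uni
    simp [π, hy]

@[symm]
theorem adjacent.symm {p q : Q n} : q ∈ p.adjacent ↔ p ∈ q.adjacent := by
  simp only [adjacent, ne_comm, Set.mem_ofPred_eq]

end Q

/-! ### The vector space -/


/-- The free vector space on vertices of a hypercube, defined inductively. -/
def V : ℕ → Type
  | 0 => ℝ
  | n + 1 => V n × V n

@[simp]
theorem V_zero : V 0 = ℝ := rfl

@[simp]
theorem V_succ {n : ℕ} : V (n + 1) = (V n × V n) := rfl

namespace V

@[ext]
theorem ext {n : ℕ} {p q : V n.succ} (h₁ : p.1 = q.1) (h₂ : p.2 = q.2) : p = q := Prod.ext h₁ h₂

variable (n : ℕ)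

/-! `V n` is a real vector space whose equality relation is computable. -/


instance : DecidableEq (V n) := by induction n <;> · dsimp only [V]; infer_instance

instance : AddCommGroup (V n) := by induction n <;> · dsimp only [V]; infer_instance

set_option backward.isDefEq.respectTransparency false in
instance : Module ℝ (V n) := by induction n <;> · dsimp only [V]; infer_instance

end V

/-- The basis of `V` indexed by the hypercube, defined inductively. -/
noncomputable def e : ∀ {n}, Q n → V n
  | 0 => fun _ => (1 : ℝ)
  | Nat.succ _ => fun x => cond (x 0) (e (π x), 0) (0, e (π x))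

@[simp]
theorem e_zero_apply (x : Q 0) : e x = (1 : ℝ) :=
  rfl

/-- The dual basis to `e`, defined inductively. -/
noncomputable def ε : ∀ {n : ℕ}, Q n → V n →ₗ[ℝ] ℝ
  | 0, _ => LinearMap.id
  | Nat.succ _, p =>
    cond (p 0) ((ε <| π p).comp <| LinearMap.fst _ _ _) ((ε <| π p).comp <| LinearMap.snd _ _ _)

variable {n : ℕ}

set_option backward.isDefEq.respectTransparency false in
theorem duality (p q : Q n) : ε p (e q) = if p = q then 1 else 0 := by
  induction n with
  | zero => simp [Subsingleton.elim (α := Q 0) p q, ε, e]
  | succ n IH =>
    dsimp [ε, e]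
    cases hp : p 0 <;> cases hq : q 0
    all_goals
      simp only [Bool.cond_true, Bool.cond_false, LinearMap.fst_apply, LinearMap.snd_apply,
        LinearMap.comp_apply, IH]
      congr 1; simp [Q.succ_n_eq, hp, hq]

/-- Any vector in `V n` annihilated by all `ε p`'s is zero. -/
theorem epsilon_total {v : V n} (h : ∀ p : Q n, (ε p) v = 0) : v = 0 := by
  induction n with
  | zero => dsimp [ε] at h; exact h fun _ => true
  | succ n ih =>
    obtain ⟨v₁, v₂⟩ := v
    ext <;> change _ = (0 : V n) <;> simp only <;> apply ih <;> intro p <;>
      [let q : Q n.succ := fun i => if h : i = 0 then true else p (i.pred h);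
      let q : Q n.succ := fun i => if h : i = 0 then false else p (i.pred h)]
    all_goals
      specialize h q
      first
      | rw [ε, show q 0 = true from rfl, Bool.cond_true] at h
      | rw [ε, show q 0 = false from rfl, Bool.cond_false] at h
      rwa [show p = π q by ext; simp [q, Fin.succ_ne_zero, π]]

open Module

/-- `e` and `ε` are dual families of vectors. It implies that `e` is indeed a basis
and `ε` computes coefficients of decompositions of vectors on that basis. -/
theorem dualBases_e_ε (n : ℕ) : DualBases (@e n) (@ε n) where
  eval_same := by simp [duality]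
  eval_of_ne _ _ h := by simp [duality, h]
  total h := sub_eq_zero.mp <| epsilon_total fun i ↦ by
    simpa only [map_sub, sub_eq_zero] using h i

/-! We will now derive the dimension of `V`, first as a cardinal in `dim_V` and,
since this cardinal is finite, as a natural number in `finrank_V` -/


theorem dim_V : Module.rank ℝ (V n) = 2 ^ n := by
  have : Module.rank ℝ (V n) = (2 ^ n : ℕ) := by
    rw [rank_eq_card_basis (dualBases_e_ε _).basis, Q.card]
  assumption_mod_cast

instance : FiniteDimensional ℝ (V n) :=
  (dualBases_e_ε _).basis.finiteDimensional_of_finite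

theorem finrank_V : finrank ℝ (V n) = 2 ^ n := by
  have := @dim_V n
  rw [← finrank_eq_rank] at this; assumption_mod_cast

/-! ### The linear map -/


/-- The linear operator $f_n$ corresponding to Huang's matrix $A_n$,
defined inductively as a ℝ-linear map from `V n` to `V n`. -/
noncomputable def f : ∀ n, V n →ₗ[ℝ] V n
  | 0 => 0
  | n + 1 =>
    LinearMap.prod (LinearMap.coprod (f n) LinearMap.id) (LinearMap.coprod LinearMap.id (-f n))

/-! The preceding definition uses linear map constructions to automatically
get that `f` is linear, but its values are somewhat buried as a side-effect.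
The next two lemmas unbury them. -/


@[simp]
theorem f_zero : f 0 = 0 :=
  rfl

theorem f_succ_apply (v : V n.succ) : f n.succ v = (f n v.1 + v.2, v.1 - f n v.2) := by
  cases v
  rw [f]
  simp only [sub_eq_add_neg]
  exact rfl

/-! In the next statement, the explicit conversion `(n : ℝ)` of `n` to a real number
is necessary since otherwise `n • v` refers to the multiplication defined
using only the addition of `V`. -/


set_option backward.isDefEq.respectTransparency false in
theorem f_squared (v : V n) : (f n) (f n v) = (n : ℝ) • v := by
  induction n with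
  | zero => simp only [Nat.cast_zero, zero_smul, f_zero, LinearMap.zero_apply]
  | succ n IH =>
    cases v; rw [f_succ_apply, f_succ_apply]; simp [IH, add_smul (n : ℝ) 1, add_assoc]; abel

/-! We now compute the matrix of `f` in the `e` basis (`p` is the line index,
`q` the column index). -/

set_option backward.isDefEq.respectTransparency false in
open scoped Classical in
theorem f_matrix (p q : Q n) : |ε q (f n (e p))| = if p ∈ q.adjacent then 1 else 0 := by
  induction n with
  | zero =>
    dsimp [f]
    simp [Q.not_adjacent_zero]
    rfl
  | succ n IH =>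
    have ite_nonneg : ite (π q = π p) (1 : ℝ) 0 ≥ 0 := by split_ifs <;> norm_num
    dsimp only [e, ε, f, V]; rw [LinearMap.prod_apply]; dsimp; cases hp : p 0 <;> cases hq : q 0
    all_goals
      repeat rw [Bool.cond_true]
      repeat rw [Bool.cond_false]
      simp [hp, hq, IH, duality, abs_of_nonneg ite_nonneg, Q.adj_iff_proj_eq,
        Q.adj_iff_proj_adj]

/-- The linear operator $g_m$ corresponding to Knuth's matrix $B_m$. -/
noncomputable def g (m : ℕ) : V m →ₗ[ℝ] V m.succ :=
  LinearMap.prod (f m + Real.sqrt (m + 1) • LinearMap.id) LinearMap.id

/-! In the following lemmas, `m` will denote a natural number. -/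


variable {m : ℕ}

/-! Again we unpack what are the values of `g`. -/


set_option backward.isDefEq.respectTransparency false in
theorem g_apply : ∀ v, g m v = (f m v + Real.sqrt (m + 1) • v, v) := by
  delta g; intro v; simp

set_option backward.isDefEq.respectTransparency false in
theorem g_injective : Injective (g m) := by
  rw [g]
  intro x₁ x₂ h
  simp only [V, LinearMap.prod_apply, LinearMap.id_apply, Prod.mk_inj, Function.prod_apply] at h
  exact h.right

set_option backward.isDefEq.respectTransparency false in
theorem f_image_g (w : V m.succ) (hv : ∃ v, g m v = w) : f m.succ w = Real.sqrt (m + 1) • w := by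
  rcases hv with ⟨v, rfl⟩
  have : Real.sqrt (m + 1) * Real.sqrt (m + 1) = m + 1 := Real.mul_self_sqrt (mod_cast zero_le)
  rw [f_succ_apply, g_apply]
  simp [this, f_squared, smul_add, add_smul, smul_smul]
  abel

/-!
### The main proof

In this section, in order to enforce that `n` is positive, we write it as
`m + 1` for some natural number `m`. -/


/-! `dim X` will denote the dimension of a subspace `X` as a cardinal. -/



/-! `fdim X` will denote the (finite) dimension of a subspace `X` as a natural number. -/



/-! `Span S` will denote the ℝ-subspace spanned by `S`. -/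



/-! `Card X` will denote the cardinal of a subset of a finite type, as a
natural number. -/



/-! In the following, `⊓` and `⊔` will denote intersection and sums of ℝ-subspaces,
equipped with their subspace structures. The notations come from the general
theory of lattices, with inf and sup (also known as meet and join). -/

open scoped Classical in
/-- If a subset `H` of `Q (m+1)` has cardinal at least `2^m + 1` then the
subspace of `V (m+1)` spanned by the corresponding basis vectors non-trivially
intersects the range of `g m`. -/
theorem exists_eigenvalue (H : Set (Q m.succ)) (hH : (Set.toFinset H).card ≥ 2 ^ m + 1) :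
    ∃ y ∈ Submodule.span ℝ (e '' H) ⊓ range (g m), y ≠ 0 := by
  let W := Submodule.span ℝ (e '' H)
  let img := range (g m)
  suffices 0 < Module.rank ℝ { x // x ∈ (W ⊓ img) } by
    exact mod_cast exists_mem_ne_zero_of_rank_pos this
  have dim_le : Module.rank ℝ { x // x ∈ (W ⊔ img) } ≤ 2 ^ (m + 1 : Cardinal) := by
    convert! ← Submodule.rank_le (W ⊔ img)
    rw [← Nat.cast_succ]
    apply dim_V
  have dim_add : Module.rank ℝ { x // x ∈ (W ⊔ img) } + Module.rank ℝ { x // x ∈ (W ⊓ img) } = Module.rank ℝ { x // x ∈ W } + 2 ^ m := by
    convert! ← Submodule.rank_sup_add_rank_inf_eq W img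
    rw [rank_range_of_injective (g m) g_injective]
    apply dim_V
  have dimW : Module.rank ℝ { x // x ∈ W } = card H := by
    have li : LinearIndependent ℝ (H.domRestrict e) := by
      convert! (dualBases_e_ε m.succ).basis.linearIndependent.comp _ Subtype.val_injective
      rw [(dualBases_e_ε _).coe_basis]
      rfl
    have hdW := rank_span li
    rw [Set.range_domRestrict] at hdW
    convert! hdW
    rw [← (dualBases_e_ε _).coe_basis, Cardinal.mk_image_eq (dualBases_e_ε _).basis.injective,
      Cardinal.mk_fintype]
  rw [← finrank_eq_rank ℝ] at dim_le dim_add dimW ⊢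
  rw [← finrank_eq_rank ℝ, ← finrank_eq_rank ℝ] at dim_add
  norm_cast at dim_le dim_add dimW ⊢
  rw [pow_succ'] at dim_le
  rw [Set.toFinset_card] at hH
  linarith

set_option backward.isDefEq.respectTransparency false in
open scoped Classical in
/-- **Huang sensitivity theorem** also known as the **Huang degree theorem** -/
theorem huang_degree_theorem (H : Set (Q m.succ)) (hH : (Set.toFinset H).card ≥ 2 ^ m + 1) :
    ∃ q, q ∈ H ∧ Real.sqrt (m + 1) ≤ ((Set.toFinset (H ∩ q.adjacent)).card : ℝ) := by
  rcases exists_eigenvalue H hH with ⟨y, ⟨⟨y_mem_H, y_mem_g⟩, y_ne⟩⟩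
  have coeffs_support : ((dualBases_e_ε m.succ).coeffs y).support ⊆ H.toFinset := by
    intro p p_in
    rw [Finsupp.mem_support_iff] at p_in
    rw [Set.mem_toFinset]
    exact (dualBases_e_ε _).mem_of_mem_span y_mem_H p p_in
  obtain ⟨q, H_max⟩ : ∃ q : Q m.succ, ∀ q' : Q m.succ, |(ε q' :) y| ≤ |ε q y| :=
    Finite.exists_max _
  have H_q_pos : 0 < |ε q y| := by
    contrapose! y_ne
    exact epsilon_total fun p => abs_nonpos_iff.mp (le_trans (H_max p) y_ne)
  refine ⟨q, (dualBases_e_ε _).mem_of_mem_span y_mem_H q (abs_pos.mp H_q_pos), ?_⟩
  let s := Real.sqrt (m + 1)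
  suffices s * |ε q y| ≤ _ * |ε q y| from (mul_le_mul_iff_left₀ H_q_pos).mp ‹_›
  let coeffs := (dualBases_e_ε m.succ).coeffs
  calc
    s * |ε q y| = |ε q (s • y)| := by
      rw [map_smul, smul_eq_mul, abs_mul, abs_of_nonneg (Real.sqrt_nonneg _)]
    _ = |ε q (f m.succ y)| := by rw [← f_image_g y (by simpa using! y_mem_g)]
    _ = |ε q (f m.succ (lc _ (coeffs y)))| := by rw [(dualBases_e_ε _).lc_coeffs y]
    _ =
        |(coeffs y).sum fun (i : Q m.succ) (a : ℝ) =>
            a • (ε q ∘ f m.succ ∘ fun i : Q m.succ => e i) i| := by
      rw [lc_def, (f m.succ).map_finsupp_linearCombination, (ε q).map_finsupp_linearCombination,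
           Finsupp.linearCombination_apply]
    _ ≤ ∑ p ∈ (coeffs y).support, |coeffs y p * (ε q <| f m.succ <| e p)| :=
      (norm_sum_le _ fun p => coeffs y p * _)
    _ = ∑ p ∈ (coeffs y).support, |coeffs y p| * ite (p ∈ q.adjacent) 1 0 := by
      simp only [abs_mul, f_matrix]
    _ = ∑ p ∈ (coeffs y).support with p ∈ q.adjacent, |coeffs y p| := by
      simp [sum_filter]
    _ ≤ ∑ p ∈ (coeffs y).support with p ∈ q.adjacent, |coeffs y q| := sum_le_sum fun p _ ↦ H_max p
    _ = #{p ∈ (coeffs y).support | p ∈ q.adjacent} * |coeffs y q| := by
      rw [sum_const, nsmul_eq_mul]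
    _ = #((coeffs y).support ∩ q.adjacent.toFinset) * |coeffs y q| := by
      congr with x; simp
    _ ≤ #(H ∩ q.adjacent).toFinset * |ε q y| := by
      refine (mul_le_mul_iff_left₀ H_q_pos).2 ?_
      norm_cast
      apply card_le_card
      rw [Set.toFinset_inter]
      convert! inter_subset_inter_right coeffs_support

end

end H184J.Huang
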