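import Pool.Agent.H184J.Basic

set_option autoImplicit false

namespace H184J

open Finset

variable {n : ℕ}

/-- the weight, zero off `Rel` -/
noncomputable def wt (f : Q n → Bool) (j : Fin n) : ℝ :=
  if j ∈ Rel f then (1 / 2 : ℝ) ^ (r f j) else 0

/-- the part of `Psi` outside `W` -/
noncomputable def PsiV (W : Finset (Fin n)) (f : Q n → Bool) : ℝ := ∑ j ∈ Rel f \ W, wt f j

lemma wt_nonneg (f : Q n → Bool) (j : Fin n) : 0 ≤ wt f j := by
  unfold wt
  split_ifs
  · positivity
  · exact le_rfl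

lemma Psi_eq (f : Q n → Bool) : Psi f = ∑ j ∈ Rel f, wt f j := by
  unfold Psi wt
  exact sum_congr rfl fun j hj => by rw [if_pos hj]

lemma wt_step (hSub : TaskSub) (f : Q n → Bool) {a j : Fin n} (h : j ≠ a) :
    wt f j ≤ (1 / 2) * (wt (res f a false) j + wt (res f a true) j) := by
  by_cases hj : j ∈ Rel f
  · have := hSub n f a j h hj
    unfold wt
    rw [if_pos hj]
    exact this
  · have h0 := wt_nonneg (res f a false) j
    have h1 := wt_nonneg (res f a true) j
    have : wt f j = 0 := by unfold wt; rw [if_neg hj]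
    rw [this]
    positivity

lemma wt_eq_zero {f : Q n → Bool} {j : Fin n} (h : j ∉ Rel f) : wt f j = 0 := by
  unfold wt
  rw [if_neg h]

lemma sum_wt_res (f : Q n → Bool) (a : Fin n) (b : Bool) (W : Finset (Fin n)) :
    ∑ j ∈ (Rel f).erase a \ W, wt (res f a b) j = PsiV W (res f a b) := by
  unfold PsiV
  symm
  apply sum_subset
  · exact sdiff_subset_sdiff (Rel_res_subset f a b) subset_rfl
  · intro j hj hj'
    apply wt_eq_zero
    intro h
    apply hj'
    rw [mem_sdiff] at hj ⊢
    exact ⟨h, hj.2⟩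

lemma PsiV_empty (f : Q n → Bool) : PsiV ∅ f = Psi f := by
  rw [Psi_eq]
  unfold PsiV
  rw [sdiff_empty]

lemma psi_step (hSub : TaskSub) (f : Q n → Bool) {a : Fin n} (ha : a ∈ Rel f) :
    Psi f ≤ (1 / 2 : ℝ) ^ (r f a) + (1 / 2) * (Psi (res f a false) + Psi (res f a true)) := by
  rw [← PsiV_empty (res f a false), ← PsiV_empty (res f a true), ← sum_wt_res, ← sum_wt_res,
    Psi_eq, ← add_sum_erase _ _ ha, sdiff_empty]
  have h1 : wt f a = (1 / 2 : ℝ) ^ (r f a) := by unfold wt; rw [if_pos ha]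
  rw [h1, ← sum_add_distrib, mul_sum]
  gcongr with j hj
  exact wt_step hSub f (mem_erase.1 hj).1

lemma psiV_step (hSub : TaskSub) (f : Q n → Bool) {a : Fin n} {W : Finset (Fin n)} (ha : a ∈ W) :
    PsiV W f ≤ (1 / 2) * (PsiV W (res f a false) + PsiV W (res f a true)) := by
  rw [← sum_wt_res f a false, ← sum_wt_res f a true, ← sum_add_distrib, mul_sum]
  have h2 : Rel f \ W = (Rel f).erase a \ W := by
    ext j
    simp only [mem_sdiff, mem_erase]
    constructor
    · rintro ⟨h1, h2⟩
      exact ⟨⟨fun h => h2 (h ▸ ha), h1⟩, h2⟩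
    · rintro ⟨⟨_, h1⟩, h2⟩
      exact ⟨h1, h2⟩
  unfold PsiV
  rw [h2]
  apply sum_le_sum
  intro j hj
  rw [mem_sdiff, mem_erase] at hj
  exact wt_step hSub f hj.1.1

lemma Psi_le_tot (hSimon : TaskSimon) (f : Q n → Bool) : Psi f ≤ tot f := by
  rw [tot_eq_sum]
  unfold Psi
  calc ∑ i ∈ Rel f, (1 / 2 : ℝ) ^ (r f i) ≤ ∑ i ∈ Rel f, Inf f i :=
        sum_le_sum fun i hi => hSimon n f i hi
    _ ≤ ∑ i, Inf f i := sum_le_sum_of_subset_of_nonneg (subset_univ _)
        fun i _ _ => Inf_nonneg f i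

/-! ### cheap variables -/

/-- a cheap variable -/
def Cheap (N q : ℕ) (f : Q n → Bool) (i : Fin n) : Prop :=
  i ∈ Rel f ∧ N * q ≤ r f i ∧ (1 / 2 : ℝ) ^ ((N - 1) * r f i) ≤ (Inf f i) ^ N

lemma cheap_bound {N q : ℕ} (hN : 1 ≤ N) {f : Q n → Bool} {i : Fin n} (h : Cheap N q f i) :
    (1 / 2 : ℝ) ^ (r f i) ≤ (1 / 2 : ℝ) ^ q * Inf f i := by
  obtain ⟨_, h1, h2⟩ := h
  have h3 : ((1 / 2 : ℝ) ^ (r f i)) ^ N ≤ ((1 / 2 : ℝ) ^ q * Inf f i) ^ N := by
    rw [mul_pow, ← pow_mul, ← pow_mul]
    have h4 : r f i * N = r f i + (N - 1) * r f i := by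
      obtain ⟨M, rfl⟩ := Nat.exists_eq_add_of_le hN
      simp only [Nat.add_sub_cancel_left]
      ring
    rw [h4, pow_add]
    apply mul_le_mul _ h2 (by positivity) (by positivity)
    rw [mul_comm q N]
    exact pow_le_pow_of_le_one (by norm_num) (by norm_num) h1
  have h5 : 0 ≤ (1 / 2 : ℝ) ^ q * Inf f i := mul_nonneg (by positivity) (Inf_nonneg f i)
  exact le_of_pow_le_pow_left₀ (by omega) h5 h3

lemma reduce_stuck (hSub : TaskSub) {N q k : ℕ} (hN : 1 ≤ N) {M : ℝ}
    (hM : ∀ g : Q n → Bool, SB g k → (∀ i, ¬ Cheap N q g i) → Psi g ≤ M) :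
    ∀ (c : ℕ) (f : Q n → Bool), (Rel f).card ≤ c → SB f k → Psi f ≤ (1 / 2 : ℝ) ^ q * tot f + M := by
  intro c
  induction c with
  | zero =>
    intro f hc hf
    have h := hM f hf (fun i hi => by
      have := card_pos.2 ⟨i, hi.1⟩
      omega)
    have h2 : 0 ≤ (1 / 2 : ℝ) ^ q * tot f := mul_nonneg (by positivity) (tot_nonneg f)
    linarith
  | succ c ih =>
    intro f hc hf
    by_cases hst : ∀ i, ¬ Cheap N q f i
    · have h := hM f hf hst
      have h2 : 0 ≤ (1 / 2 : ℝ) ^ q * tot f := mul_nonneg (by positivity) (tot_nonneg f)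
      linarith
    · push Not at hst
      obtain ⟨a, ha⟩ := hst
      have h0 := ih (res f a false) (by
        have := card_Rel_res_lt ha.1 false
        omega) (SB_res hf a false)
      have h1 := ih (res f a true) (by
        have := card_Rel_res_lt ha.1 true
        omega) (SB_res hf a true)
      have h2 := psi_step hSub f ha.1
      have h3 := cheap_bound hN ha
      have h4 := tot_res f a
      rw [h4]
      nlinarith [h0, h1, h2, h3]

/-! ### restricting a whole set of variables -/

/-- restriction on a set -/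
def resV (f : Q n → Bool) (V : Finset (Fin n)) (y : Q n) : Q n → Bool :=
  fun x => f (fun i => if i ∈ V then y i else x i)

lemma resV_insert (f : Q n → Bool) (V : Finset (Fin n)) (y : Q n) (a : Fin n) (b : Bool) :
    resV (res f a b) V y = resV f (insert a V) (Function.update y a b) := by
  funext x
  unfold resV res
  congr 1
  funext i
  by_cases h : i = a
  · subst h
    simp
  · rw [Function.update_of_ne h, Function.update_of_ne h]
    by_cases h2 : i ∈ V <;> simp [h, h2]

lemma psiV_le (hSub : TaskSub) {W : Finset (Fin n)} {M : ℝ} (V : Finset (Fin n)) :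
    ∀ f : Q n → Bool, V ⊆ W → (∀ y, PsiV W (resV f V y) ≤ M) → PsiV W f ≤ M := by
  induction V using Finset.induction_on with
  | empty =>
    intro f _ h
    have : resV f ∅ (fun _ => false) = f := by
      funext x
      simp [resV]
    rw [← this]
    exact h _
  | insert a V ha ih =>
    intro f hV h
    have hV' : V ⊆ W := (subset_insert a V).trans hV
    have h0 := ih (res f a false) hV' (fun y => by rw [resV_insert]; exact h _)
    have h1 := ih (res f a true) hV' (fun y => by rw [resV_insert]; exact h _)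
    have h2 := psiV_step hSub f (hV (mem_insert_self a V))
    linarith

lemma Psi_le_of_resV (hSub : TaskSub) {M : ℝ} (f : Q n → Bool) (V : Finset (Fin n))
    (h : ∀ y, Psi (resV f V y) ≤ M) :
    Psi f ≤ ∑ i ∈ V, wt f i + M := by
  have h1 : ∀ y, PsiV V (resV f V y) ≤ M := by
    intro y
    refine le_trans ?_ (h y)
    rw [Psi_eq]
    exact sum_le_sum_of_subset_of_nonneg sdiff_subset fun i _ _ => wt_nonneg _ i
  have h2 := psiV_le hSub V f subset_rfl h1
  have h3 : Psi f ≤ ∑ i ∈ V, wt f i + PsiV V f := by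
    rw [Psi_eq]
    unfold PsiV
    have h4 : ∑ j ∈ Rel f, wt f j = ∑ j ∈ Rel f ∩ V, wt f j + ∑ j ∈ Rel f \ V, wt f j := by
      rw [← sum_union]
      · congr 1
        ext j
        simp only [mem_union, mem_inter, mem_sdiff]
        tauto
      · rw [disjoint_left]
        intro j hj hj'
        exact (mem_sdiff.1 hj').2 (mem_inter.1 hj).2
    rw [h4]
    have h5 : ∑ j ∈ Rel f ∩ V, wt f j ≤ ∑ j ∈ V, wt f j :=
      sum_le_sum_of_subset_of_nonneg inter_subset_right fun i _ _ => wt_nonneg _ i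
    linarith
  linarith

/-- the variables with `r ≥ t` -/
def VV (f : Q n → Bool) (t : ℕ) : Finset (Fin n) := (Rel f).filter (fun i => t ≤ r f i)

lemma Sens_subset_VV {f : Q n → Bool} {x : Q n} {u : ℕ} (h : u + 1 ≤ (Sens f x).card) :
    Sens f x ⊆ VV f u := by
  intro i hi
  unfold VV
  rw [mem_filter]
  refine ⟨Sens_subset_Rel f x hi, ?_⟩
  have := card_le_r hi
  omega

lemma SB_resV (f : Q n → Bool) (m : ℕ) (y : Q n) : SB (resV f (VV f m) y) m := by
  intro x
  by_contra hcon
  push Not at hcon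
  have hsub : Sens (resV f (VV f m) y) x ⊆
      Sens f (fun i => if i ∈ VV f m then y i else x i) \ VV f m := by
    intro i hi
    have hi' := mem_Sens.1 hi
    have hiV : i ∉ VV f m := by
      intro hiV
      apply hi'
      unfold resV
      congr 1
      funext j
      by_cases hj : j ∈ VV f m
      · simp [hj]
      · rw [if_neg hj, if_neg hj, fl_of_ne]
        rintro rfl
        exact hj hiV
    rw [mem_sdiff]
    refine ⟨?_, hiV⟩
    rw [mem_Sens]
    have : (fun j => if j ∈ VV f m then y j else (fl x i) j) =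
        fl (fun j => if j ∈ VV f m then y j else x j) i := by
      funext j
      by_cases hj : j = i
      · subst hj
        simp [fl, hiV]
      · rw [fl_of_ne _ hj, fl_of_ne _ hj]
    unfold resV at hi'
    rw [this] at hi'
    exact hi'
  have h1 : m + 1 ≤ (Sens f (fun i => if i ∈ VV f m then y i else x i)).card :=
    hcon.trans_le (card_le_card (hsub.trans sdiff_subset))
  have h2 := Sens_subset_VV h1
  rw [sdiff_eq_empty_iff_subset.2 h2] at hsub
  have h3 := card_le_card hsub
  rw [card_empty] at h3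
  omega

lemma sum_wt_VV_le (hSimon : TaskSimon) (f : Q n → Bool) (t : ℕ) :
    ∑ i ∈ VV f t, wt f i ≤ ∑ i ∈ VV f t, Inf f i := by
  apply sum_le_sum
  intro i hi
  unfold VV at hi
  have h := (mem_filter.1 hi).1
  unfold wt
  rw [if_pos h]
  exact hSimon n f i h

end H184J
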