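import Pool.Agent.H184J.MainA

set_option autoImplicit false

namespace H184J

open Finset

variable {n : ℕ}

lemma sum_Inf_mul (f : Q n → Bool) (V : Finset (Fin n)) (w : Fin n → ℝ) :
    ∑ i ∈ V, Inf f i * w i = E (fun x => ∑ i ∈ V ∩ Sens f x, w i) := by
  have h1 : ∀ i ∈ V, Inf f i * w i = E (fun x => if i ∈ Sens f x then w i else 0) := by
    intro i _
    unfold Inf
    rw [mul_comm, ← E_mul_left]
    congr 1
    funext x
    split_ifs <;> simp
  rw [sum_congr rfl h1, ← E_sum]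
  congr 1
  funext x
  rw [← sum_filter]
  apply sum_congr _ fun _ _ => rfl
  ext i
  simp

/-- the sum `R` -/
noncomputable def RR (f : Q n → Bool) (V : Finset (Fin n)) : ℝ :=
  ∑ i ∈ V, Inf f i * (r f i : ℝ)

lemma four_X2_add (f : Q n → Bool) (V : Finset (Fin n)) :
    4 * X2 f V + 2 * Y2 f V =
      E (fun x => ∑ _i ∈ V ∩ Sens f x, 2 * (((Sens f x).card : ℝ) - 1)) := by
  unfold X2 Y2
  rw [← E_mul_left, ← E_mul_left, ← E_add]
  congr 1
  funext x
  rw [sum_const, nsmul_eq_mul]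
  have h1 : ((Sens f x).card : ℝ) = ((V ∩ Sens f x).card : ℝ) + ((Sens f x \ V).card : ℝ) := by
    rw [inter_comm, ← Nat.cast_add, card_inter_add_card_sdiff]
  rw [h1]
  ring

lemma E_inc_two (f : Q n → Bool) (V : Finset (Fin n)) :
    E (fun x => ∑ _i ∈ V ∩ Sens f x, 2 * (((Sens f x).card : ℝ) - 1)) =
      E (fun x => ∑ i ∈ V ∩ Sens f x,
        (((Sens f x).card : ℝ) + ((Sens f (fl x i)).card : ℝ) - 2)) := by
  have h1 : (fun x => ∑ i ∈ V ∩ Sens f x,
        (((Sens f x).card : ℝ) + ((Sens f (fl x i)).card : ℝ) - 2)) =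
      (fun x => ∑ i ∈ V ∩ Sens f x, (((Sens f x).card : ℝ) - 1) +
        ∑ i ∈ V ∩ Sens f x, (((Sens f (fl x i)).card : ℝ) - 1)) := by
    funext x
    rw [← sum_add_distrib]
    apply sum_congr rfl
    intro i _
    ring
  rw [h1, E_add, E_inc_fl f V (fun x => ((Sens f x).card : ℝ) - 1), ← E_add]
  congr 1
  funext x
  rw [← sum_add_distrib]
  apply sum_congr rfl
  intro i _
  ring

/-- the slack of an incidence is nonnegative -/
lemma slack_nonneg {f : Q n → Bool} {x : Q n} {i : Fin n} (h : i ∈ Sens f x) :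
    ((Sens f x).card : ℝ) + ((Sens f (fl x i)).card : ℝ) - 2 ≤ r f i := by
  have h1 := le_r h
  have h2 : (Sens f x).card + (Sens f (fl x i)).card ≤ r f i + 2 := by omega
  have h3 : ((Sens f x).card : ℝ) + ((Sens f (fl x i)).card : ℝ) ≤ r f i + 2 := by
    exact_mod_cast h2
  linarith

lemma slack_eq (f : Q n → Bool) (V : Finset (Fin n)) :
    RR f V - 4 * X2 f V - 2 * Y2 f V = E (fun x => ∑ i ∈ V ∩ Sens f x,
        ((r f i : ℝ) - (((Sens f x).card : ℝ) + ((Sens f (fl x i)).card : ℝ) - 2))) := by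
  have h1 := four_X2_add f V
  rw [E_inc_two] at h1
  have h2 : RR f V = E (fun x => ∑ i ∈ V ∩ Sens f x, (r f i : ℝ)) := sum_Inf_mul f V _
  have h3 : RR f V - 4 * X2 f V - 2 * Y2 f V = RR f V - (4 * X2 f V + 2 * Y2 f V) := by ring
  rw [h3, h1, h2, ← E_sub]
  congr 1
  funext x
  rw [← sum_sub_distrib]

lemma slack_E_nonneg (f : Q n → Bool) (V : Finset (Fin n)) :
    0 ≤ RR f V - 4 * X2 f V - 2 * Y2 f V := by
  rw [slack_eq]
  apply E_nonneg
  intro x
  apply sum_nonneg
  intro i hi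
  have := slack_nonneg (mem_inter.1 hi).2
  linarith

lemma nat_half_nonneg (a : ℕ) : (0 : ℝ) ≤ (a : ℝ) * ((a : ℝ) - 1) / 2 := by
  rcases Nat.eq_zero_or_pos a with h | h
  · simp [h]
  · have : (1 : ℝ) ≤ a := by exact_mod_cast h
    have h2 : 0 ≤ (a : ℝ) - 1 := by linarith
    positivity

lemma X2_nonneg (f : Q n → Bool) (V : Finset (Fin n)) : 0 ≤ X2 f V :=
  E_nonneg fun x => nat_half_nonneg _

lemma Y2_nonneg (f : Q n → Bool) (V : Finset (Fin n)) : 0 ≤ Y2 f V :=
  E_nonneg fun x => by positivity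

/-- the number of incidences in `V` at points of small sensitivity -/
noncomputable def LL (f : Q n → Bool) (V : Finset (Fin n)) (u : ℕ) : ℝ :=
  E (fun x => ∑ _i ∈ V ∩ Sens f x, if (Sens f x).card ≤ u then (1 : ℝ) else 0)

/-- number of incidences at points of large sensitivity -/
noncomputable def HH (f : Q n → Bool) (V : Finset (Fin n)) (u : ℕ) : ℝ :=
  E (fun x => ∑ _i ∈ V ∩ Sens f x, if (Sens f x).card ≤ u then (0 : ℝ) else 1)

lemma HH_le (f : Q n → Bool) (V : Finset (Fin n)) {u : ℕ} (hu : 1 ≤ u) :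
    HH f V u ≤ (2 / u) * X2 f (VV f u) := by
  unfold HH X2
  rw [← E_mul_left]
  apply E_mono
  intro x
  have hu' : (1 : ℝ) ≤ u := by exact_mod_cast hu
  by_cases h : (Sens f x).card ≤ u
  · simp only [h, if_true, sum_const_zero]
    have := nat_half_nonneg (VV f u ∩ Sens f x).card
    positivity
  · simp only [h, if_false, sum_const, nsmul_eq_mul, mul_one]
    have h1 : u + 1 ≤ (Sens f x).card := by omega
    rw [inter_eq_right.2 (Sens_subset_VV h1)]
    have h2 : ((V ∩ Sens f x).card : ℝ) ≤ (Sens f x).card := by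
      exact_mod_cast card_le_card inter_subset_right
    have h3 : (u : ℝ) ≤ (Sens f x).card - 1 := by
      have : ((u + 1 : ℕ) : ℝ) ≤ (Sens f x).card := by exact_mod_cast h1
      push_cast at this
      linarith
    refine h2.trans ?_
    have h4 : (2 / u : ℝ) * (((Sens f x).card : ℝ) * (((Sens f x).card : ℝ) - 1) / 2) =
        ((Sens f x).card : ℝ) * ((((Sens f x).card : ℝ) - 1) / u) := by
      field_simp
    rw [h4]
    have h5 : (1 : ℝ) ≤ (((Sens f x).card : ℝ) - 1) / u := by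
      rw [le_div_iff₀ (by linarith)]
      linarith
    have h6 : (0 : ℝ) ≤ (Sens f x).card := by positivity
    nlinarith

lemma LL_le (f : Q n → Bool) {u : ℕ} (hu : 1 ≤ u) :
    LL f (VV f (4 * u)) u ≤
      (RR f (VV f (4 * u)) - 4 * X2 f (VV f (4 * u)) - 2 * Y2 f (VV f (4 * u))) / (2 * u) +
        (2 / u) * X2 f (VV f u) := by
  have hu' : (1 : ℝ) ≤ u := by exact_mod_cast hu
  have h1 := HH_le f (VV f (4 * u)) hu
  unfold HH at h1
  rw [← E_inc_fl f (VV f (4 * u)) (fun x => if (Sens f x).card ≤ u then (0 : ℝ) else 1)] at h1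
  refine le_trans ?_ (add_le_add le_rfl h1)
  rw [slack_eq]
  unfold LL
  rw [div_eq_mul_inv, mul_comm _ (2 * (u : ℝ))⁻¹, ← E_mul_left, ← E_add]
  apply E_mono
  intro x
  rw [mul_sum, ← sum_add_distrib]
  apply sum_le_sum
  intro i hi
  rw [mem_inter] at hi
  have hr : 4 * u ≤ r f i := by
    have := hi.1
    unfold VV at this
    exact (mem_filter.1 this).2
  have hr' : (4 : ℝ) * u ≤ r f i := by exact_mod_cast hr
  have hs := slack_nonneg hi.2
  have hinv : 0 < (2 * (u : ℝ))⁻¹ := by positivity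
  have hprod : 0 ≤ (2 * (u : ℝ))⁻¹ *
      ((r f i : ℝ) - (((Sens f x).card : ℝ) + ((Sens f (fl x i)).card : ℝ) - 2)) := by
    apply mul_nonneg hinv.le
    linarith
  by_cases h2 : (Sens f (fl x i)).card ≤ u
  · rw [if_pos h2]
    by_cases h3 : (Sens f x).card ≤ u
    · rw [if_pos h3]
      have h2' : ((Sens f (fl x i)).card : ℝ) ≤ u := by exact_mod_cast h2
      have h3' : ((Sens f x).card : ℝ) ≤ u := by exact_mod_cast h3
      have h4 : 2 * (u : ℝ) ≤
          ((r f i : ℝ) - (((Sens f x).card : ℝ) + ((Sens f (fl x i)).card : ℝ) - 2)) := by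
        linarith
      have h5 : (2 * (u : ℝ))⁻¹ * (2 * (u : ℝ)) = 1 := by
        apply inv_mul_cancel₀
        positivity
      have h6 := mul_le_mul_of_nonneg_left h4 hinv.le
      rw [h5] at h6
      linarith
    · rw [if_neg h3]
      linarith
  · rw [if_neg h2]
    have : (if (Sens f x).card ≤ u then (1 : ℝ) else 0) ≤ 1 := by split_ifs <;> norm_num
    linarith

lemma Y2_le (f : Q n → Bool) (u : ℕ) (V : Finset (Fin n)) :
    Y2 f V ≤ X2 f (VV f u) + u * LL f V u := by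
  unfold Y2 X2 LL
  rw [← E_mul_left, ← E_add]
  apply E_mono
  intro x
  have hs : ((Sens f x).card : ℝ) = ((V ∩ Sens f x).card : ℝ) + ((Sens f x \ V).card : ℝ) := by
    rw [inter_comm, ← Nat.cast_add, card_inter_add_card_sdiff]
  by_cases h : (Sens f x).card ≤ u
  · have h' : ((Sens f x).card : ℝ) ≤ u := by exact_mod_cast h
    simp only [h, if_true, sum_const, nsmul_eq_mul, mul_one]
    have h1 := nat_half_nonneg (VV f u ∩ Sens f x).card
    have h2 : (0 : ℝ) ≤ (V ∩ Sens f x).card := by positivity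
    have h3 : ((Sens f x \ V).card : ℝ) ≤ u := by
      linarith
    nlinarith
  · have h1 : u + 1 ≤ (Sens f x).card := by omega
    rw [inter_eq_right.2 (Sens_subset_VV h1)]
    simp only [h, if_false, sum_const_zero, mul_zero, add_zero]
    rw [hs]
    have ha := nat_half_nonneg (V ∩ Sens f x).card
    have hb := nat_half_nonneg (Sens f x \ V).card
    nlinarith

lemma sum_Inf_le (f : Q n → Bool) (u : ℕ) (V : Finset (Fin n)) :
    ∑ i ∈ V, Inf f i = LL f V u + HH f V u := by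
  rw [sum_Inf]
  unfold LL HH
  rw [← E_add]
  congr 1
  funext x
  rw [← sum_add_distrib]
  by_cases h : (Sens f x).card ≤ u <;> simp [h]

/-- The entropy upper bound for `R`. -/
lemma RR_upper (hPhi : TaskPhi) (hSimon : TaskSimon) (hTree : TaskTree) (hEnt : TaskEnt)
    (hRank : TaskRank) {N q k : ℕ} (hN : 3 ≤ N) {f : Q n → Bool} {η : ℝ}
    (hf : SB f k) (hst : ∀ i, ¬ Cheap N q f i)
    (hη : ∀ g : Q n → Bool, SB g k → (∀ i, Inf g i < (1 / 2 : ℝ) ^ q) → tot g ≤ η)
    {t : ℕ} (ht : N * q ≤ t) :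
    ((N : ℝ) - 2) * RR f (VV f t) ≤
      2 * N * (X2 f (VV f t) + Y2 f (VV f t)) + 2 * N * (k * η) := by
  have hθ : (0 : ℝ) < (1 / 2 : ℝ) ^ q := by positivity
  have hθ1 : (1 / 2 : ℝ) ^ q ≤ 1 := pow_le_one₀ (by norm_num) (by norm_num)
  obtain ⟨T, hT⟩ := hTree n f _ hθ
  have h1 := hEnt hPhi hSimon n k f _ η T hθ hθ1 hf hT hη (VV f t)
  have h2 := hRank n f T (VV f t)
  have hl2 : 0 < Real.log 2 := Real.log_pos (by norm_num)
  have hNpos : (0 : ℝ) < N := by
    have : 0 < N := by omega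
    exact_mod_cast this
  have hlog : Real.log (1 / (1 / 2 : ℝ) ^ q) = q * Real.log 2 := by
    rw [one_div, ← inv_pow, one_div, inv_inv, Real.log_pow]
  rw [hlog] at h1
  -- lower bound for the entropy
  have h3 : ∀ i ∈ VV f t, ((N : ℝ) - 1) * Real.log 2 * (Inf f i * r f i) ≤
      N * Real.negMulLog (Inf f i) := by
    intro i hi
    unfold VV at hi
    rw [mem_filter] at hi
    have h4 : ¬ ((1 / 2 : ℝ) ^ ((N - 1) * r f i) ≤ (Inf f i) ^ N) := fun h =>
      hst i ⟨hi.1, ht.trans hi.2, h⟩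
    push Not at h4
    have hI : 0 < Inf f i := by
      have := hSimon n f i hi.1
      have h5 : (0 : ℝ) < (1 / 2 : ℝ) ^ (r f i) := by positivity
      linarith
    have h5 := Real.log_lt_log (by positivity) h4
    rw [Real.log_pow, Real.log_pow, one_div, Real.log_inv] at h5
    have h6 : (((N - 1) * r f i : ℕ) : ℝ) = ((N : ℝ) - 1) * r f i := by
      push_cast [Nat.cast_sub (show 1 ≤ N by omega)]
      ring
    rw [h6] at h5
    unfold Real.negMulLog
    nlinarith [mul_le_mul_of_nonneg_left h5.le hI.le]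
  have h4 : ((N : ℝ) - 1) * Real.log 2 * RR f (VV f t) ≤
      N * ∑ i ∈ VV f t, Real.negMulLog (Inf f i) := by
    unfold RR
    rw [mul_sum, mul_sum]
    exact sum_le_sum h3
  have h5 : (N : ℝ) * ((q : ℝ) * ∑ i ∈ VV f t, Inf f i) ≤ RR f (VV f t) := by
    unfold RR
    rw [mul_sum, mul_sum]
    apply sum_le_sum
    intro i hi
    unfold VV at hi
    rw [mem_filter] at hi
    have h6 : (N : ℝ) * q ≤ r f i := by exact_mod_cast ht.trans hi.2
    nlinarith [mul_le_mul_of_nonneg_left h6 (Inf_nonneg f i)]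
  -- combine
  have h6 : ((N : ℝ) - 1) * Real.log 2 * RR f (VV f t) ≤
      N * (Real.log 2 * (2 * (X2 f (VV f t) + Y2 f (VV f t))) +
        q * Real.log 2 * ∑ i ∈ VV f t, Inf f i + 2 * k * Real.log 2 * η) := by
    refine h4.trans (mul_le_mul_of_nonneg_left (h1.trans ?_) hNpos.le)
    have := mul_le_mul_of_nonneg_left h2 hl2.le
    linarith
  have h7 : Real.log 2 * (((N : ℝ) - 1) * RR f (VV f t)) ≤
      Real.log 2 * (N * (2 * (X2 f (VV f t) + Y2 f (VV f t))) +
        N * (q * ∑ i ∈ VV f t, Inf f i) + 2 * N * (k * η)) := by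
    nlinarith [h6]
  have h8 := le_of_mul_le_mul_left h7 hl2
  nlinarith [h8, h5]

/-- The main inequalities for a stuck function. -/
lemma main_ineq (hPhi : TaskPhi) (hSimon : TaskSimon) (hTree : TaskTree) (hEnt : TaskEnt)
    (hRank : TaskRank) {q k : ℕ} {f : Q n → Bool} {η : ℝ} (hη0 : 0 ≤ η)
    (hf : SB f k) (hst : ∀ i, ¬ Cheap (2 ^ 17) q f i)
    (hη : ∀ g : Q n → Bool, SB g k → (∀ i, Inf g i < (1 / 2 : ℝ) ^ q) → tot g ≤ η)
    {u : ℕ} (hu : 1 ≤ u) (ht : 2 ^ 17 * q ≤ 4 * u) :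
    X2 f (VV f (4 * u)) ≤ (1 / 2 ^ 12) * X2 f (VV f u) + 4 * (k * η) ∧
    ∑ i ∈ VV f (4 * u), Inf f i ≤ 10 * X2 f (VV f u) + 8 * (k * η) := by
  have hR := RR_upper hPhi hSimon hTree hEnt hRank (by norm_num) hf hst hη ht
  push_cast at hR
  have hu' : (1 : ℝ) ≤ u := by exact_mod_cast hu
  have hΔ := slack_E_nonneg f (VV f (4 * u))
  have hL := LL_le f hu
  have hY := Y2_le f u (VV f (4 * u))
  have hS := sum_Inf_le f u (VV f (4 * u))
  have hH := HH_le f (VV f (4 * u)) hu
  have hX0 := X2_nonneg f (VV f (4 * u))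
  have hXu := X2_nonneg f (VV f u)
  have hY0 := Y2_nonneg f (VV f (4 * u))
  have he : 0 ≤ (k : ℝ) * η := by positivity
  set X := X2 f (VV f (4 * u)) with hXdef
  set Y := Y2 f (VV f (4 * u)) with hYdef
  set R := RR f (VV f (4 * u)) with hRdef
  set Xu := X2 f (VV f u) with hXudef
  set e := (k : ℝ) * η with hedef
  set L := LL f (VV f (4 * u)) u with hLdef
  set S := ∑ i ∈ VV f (4 * u), Inf f i with hSdef
  set Hh := HH f (VV f (4 * u)) u with hHdef
  -- slack
  have hD : R - 4 * X - 2 * Y ≤ (8 / 2 ^ 17) * Y + 4 * e := by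
    nlinarith
  have hXY : X ≤ (4 / 2 ^ 17) * Y + 2 * e := by
    nlinarith
  have huL : u * L ≤ (R - 4 * X - 2 * Y) / 2 + 2 * Xu := by
    have h := mul_le_mul_of_nonneg_left hL (by linarith : (0 : ℝ) ≤ u)
    have h2 : (u : ℝ) * ((R - 4 * X - 2 * Y) / (2 * u) + 2 / u * Xu) =
        (R - 4 * X - 2 * Y) / 2 + 2 * Xu := by
      field_simp
    rw [h2] at h
    exact h
  have hY2 : Y ≤ 6 * Xu + 4 * e := by
    nlinarith
  have hL2 : L ≤ (R - 4 * X - 2 * Y) / 2 + 2 * Xu := by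
    refine hL.trans (add_le_add ?_ ?_)
    · apply div_le_div_of_nonneg_left hΔ (by norm_num)
      linarith
    · apply mul_le_mul_of_nonneg_right _ hXu
      rw [div_le_iff₀ (by linarith)]
      linarith
  have hH2 : Hh ≤ 2 * Xu := by
    refine hH.trans ?_
    apply mul_le_mul_of_nonneg_right _ hXu
    rw [div_le_iff₀ (by linarith)]
    linarith
  constructor
  · nlinarith
  · rw [hS]
    nlinarith

lemma X2_le {k : ℕ} {f : Q n → Bool} (hf : SB f k) (V : Finset (Fin n)) :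
    X2 f V ≤ (k : ℝ) ^ 2 := by
  have : X2 f V ≤ E (fun _ : Q n => (k : ℝ) ^ 2) := by
    unfold X2
    apply E_mono
    intro x
    have h1 : ((V ∩ Sens f x).card : ℝ) ≤ k := by
      exact_mod_cast (card_le_card inter_subset_right).trans (hf x)
    have h2 : (0 : ℝ) ≤ (V ∩ Sens f x).card := by positivity
    nlinarith
  rwa [E_const] at this

end H184J
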