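import Pool.Agent.H184J.MainB

set_option autoImplicit false

namespace H184J

open Finset

/-- all the tasks -/
structure Tasks : Prop where
  hSub : TaskSub
  hSimon : TaskSimon
  hOsss : TaskOsss
  hHuang : TaskHuang
  hGL : TaskGL
  hMarkov : TaskMarkov
  hDisj : TaskDisj
  hDT : TaskDT
  hTree : TaskTree
  hPhi : TaskPhi
  hEnt : TaskEnt
  hRank : TaskRank

lemma SB_mono {n : ℕ} {f : Q n → Bool} {k m : ℕ} (h : SB f k) (hkm : k ≤ m) : SB f m :=
  fun x => (h x).trans hkm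

lemma leaf_bound (hT : Tasks) {n k : ℕ} {θ : ℝ} (hθ : 0 ≤ θ) (g : Q n → Bool) (hg : SB g k)
    (h : ∀ i, Inf g i < θ) : tot g ≤ 2 * k * (4 * ((k : ℝ) ^ 2) ^ 4) * θ := by
  have hdeg : ∀ S, cf g S ≠ 0 → S.card ≤ k ^ 2 := fun S hS => hT.hGL hT.hHuang n k g S hg hS
  have hDTg : DT (4 * (k ^ 2) ^ 4) g := hT.hDT hT.hMarkov hT.hDisj n (k ^ 2) g hdeg
  have := hT.hOsss n _ k g θ hθ hDTg hg (fun i => (h i).le)
  push_cast at this
  exact this

lemma two_pow_ge (l : ℕ) (hl : 27 ≤ l) : 2 ^ 17 * (24 * (l + 1)) ≤ 2 ^ l := by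
  obtain ⟨d, rfl⟩ := Nat.exists_eq_add_of_le hl
  induction d with
  | zero => norm_num
  | succ d ih =>
    have := ih (by omega)
    rw [← add_assoc, pow_succ]
    omega

/-- the chain of inequalities -/
lemma chain (hT : Tasks) {n l : ℕ} (hl : 27 ≤ l) {f : Q n → Bool} {η : ℝ} (hη0 : 0 ≤ η)
    (hf : SB f (4 ^ (l + 1))) (hst : ∀ i, ¬ Cheap (2 ^ 17) (24 * (l + 1)) f i)
    (hη : ∀ g : Q n → Bool, SB g (4 ^ (l + 1)) →
      (∀ i, Inf g i < (1 / 2 : ℝ) ^ (24 * (l + 1))) → tot g ≤ η) :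
    ∀ p : ℕ, p ≤ l / 2 → X2 f (VV f (4 ^ (l - 1 - l / 2 + p))) ≤
      (1 / 2 ^ 12) ^ p * ((4 : ℝ) ^ (l + 1)) ^ 2 + 8 * (4 ^ (l + 1) * η) := by
  intro p
  induction p with
  | zero =>
    intro _
    have h := X2_le hf (VV f (4 ^ (l - 1 - l / 2 + 0)))
    push_cast at h
    have : 0 ≤ 8 * ((4 : ℝ) ^ (l + 1) * η) := by positivity
    rw [pow_zero, one_mul]
    linarith
  | succ p ih =>
    intro hp
    have ih' := ih (by omega)
    have hexp : 2 ^ 17 * (24 * (l + 1)) ≤ 4 * 4 ^ (l - 1 - l / 2 + p) := by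
      refine (two_pow_ge l hl).trans ?_
      have h4 : 4 * 4 ^ (l - 1 - l / 2 + p) = 2 ^ (2 * (l - 1 - l / 2 + p + 1)) := by
        rw [pow_mul]
        norm_num [pow_succ]
        ring
      rw [h4]
      exact Nat.pow_le_pow_right (by norm_num) (by omega)
    have h := (main_ineq hT.hPhi hT.hSimon hT.hTree hT.hEnt hT.hRank hη0 hf hst hη
      (Nat.one_le_pow _ 4 (by norm_num)) hexp).1
    have h5 : 4 * 4 ^ (l - 1 - l / 2 + p) = 4 ^ (l - 1 - l / 2 + (p + 1)) := by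
      rw [← add_assoc, pow_succ (4 : ℕ) (l - 1 - l / 2 + p)]
      ring
    rw [h5] at h
    push_cast at h
    rw [pow_succ (1 / 2 ^ 12 : ℝ) p]
    have h6 : 0 ≤ (4 : ℝ) ^ (l + 1) * η := by positivity
    nlinarith

lemma step (hT : Tasks) {l : ℕ} (hl : 27 ≤ l) {M : ℝ}
    (hM : ∀ (n : ℕ) (f : Q n → Bool), SB f (4 ^ l) → Psi f ≤ M) :
    ∀ (n : ℕ) (f : Q n → Bool), SB f (4 ^ (l + 1)) → Psi f ≤ M + 2 ^ 14 * (1 / 2) ^ l := by
  intro n f hf
  set a : ℝ := (1 / 2 : ℝ) ^ l with ha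
  have ha0 : 0 < a := by positivity
  have ha1 : a ≤ 1 := pow_le_one₀ (by norm_num) (by norm_num)
  set θ : ℝ := (1 / 2 : ℝ) ^ (24 * (l + 1)) with hθ
  have hθ0 : 0 < θ := by positivity
  set K : ℝ := (4 : ℝ) ^ (l + 1) with hK
  have hK0 : 0 < K := by positivity
  have hη : ∀ g : Q n → Bool, SB g (4 ^ (l + 1)) → (∀ i, Inf g i < θ) →
      tot g ≤ 2 * K * (4 * (K ^ 2) ^ 4) * θ := by
    intro g hg h
    have := leaf_bound hT hθ0.le g hg h
    push_cast at this
    exact this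
  have hη0 : 0 ≤ 2 * K * (4 * (K ^ 2) ^ 4) * θ := by positivity
  -- numerical facts
  have hθa : θ = (1 / 2) ^ 24 * a ^ 24 := by
    rw [hθ, ha, mul_add, pow_add, ← pow_mul, mul_comm l 24]
    ring
  have hKa : K * a ^ 2 = 4 := by
    rw [hK, ha, pow_succ, ← pow_mul, mul_comm l 2, pow_mul (1 / 2 : ℝ) 2 l]
    rw [mul_comm ((4 : ℝ) ^ l) 4, mul_assoc, ← mul_pow]
    norm_num
  have he : K * (2 * K * (4 * (K ^ 2) ^ 4) * θ) ≤ a := by
    have h1 : K * (2 * K * (4 * (K ^ 2) ^ 4) * θ) = 8 * (K * a ^ 2) ^ 10 * a ^ 4 * (1 / 2) ^ 24 := by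
      rw [hθa]
      ring
    rw [h1, hKa]
    have h2 : a ^ 4 ≤ a := by
      calc a ^ 4 = a * a ^ 3 := by ring
        _ ≤ a * 1 := mul_le_mul_of_nonneg_left (pow_le_one₀ ha0.le ha1) ha0.le
        _ = a := mul_one a
    calc 8 * (4 : ℝ) ^ 10 * a ^ 4 * (1 / 2) ^ 24 = (1 / 2) * a ^ 4 := by ring
      _ ≤ a := by linarith [pow_pos ha0 4]
  have hKθ : θ * K ≤ a := by
    have h1 : θ * K = (K * a ^ 2) * a ^ 22 * (1 / 2) ^ 24 := by
      rw [hθa]
      ring
    rw [h1, hKa]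
    have h2 : a ^ 22 ≤ a := by
      calc a ^ 22 = a * a ^ 21 := by ring
        _ ≤ a * 1 := mul_le_mul_of_nonneg_left (pow_le_one₀ ha0.le ha1) ha0.le
        _ = a := mul_one a
    have h3 := pow_pos ha0 22
    nlinarith
  have hKp : (1 / 2 ^ 12) ^ (l / 2) * K ^ 2 ≤ 2 ^ 10 * a := by
    have h1 : (1 / 2 ^ 12 : ℝ) ^ (l / 2) ≤ 2 ^ 6 * a ^ 6 := by
      have h2 : (1 / 2 ^ 12 : ℝ) ^ (l / 2) = (1 / 2) ^ (12 * (l / 2)) := by
        rw [pow_mul]
        norm_num
      have h3 : a ^ 6 = (1 / 2 : ℝ) ^ (6 * l) := by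
        rw [ha, ← pow_mul, mul_comm]
      rw [h2, h3]
      have h4 : (1 / 2 : ℝ) ^ (12 * (l / 2) + 6) ≤ (1 / 2 : ℝ) ^ (6 * l) :=
        pow_le_pow_of_le_one (by norm_num) (by norm_num) (by omega)
      rw [pow_add] at h4
      linarith
    calc (1 / 2 ^ 12) ^ (l / 2) * K ^ 2 ≤ 2 ^ 6 * a ^ 6 * K ^ 2 :=
          mul_le_mul_of_nonneg_right h1 (by positivity)
      _ = 2 ^ 6 * (K * a ^ 2) ^ 2 * (a * a) := by ring
      _ = 2 ^ 10 * (a * a) := by rw [hKa]; ring
      _ ≤ 2 ^ 10 * (a * 1) := by gcongr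
      _ = 2 ^ 10 * a := by rw [mul_one]
  -- the stuck case
  have hstuck : ∀ g : Q n → Bool, SB g (4 ^ (l + 1)) →
      (∀ i, ¬ Cheap (2 ^ 17) (24 * (l + 1)) g i) →
      Psi g ≤ M + (10 * (2 ^ 10 * a + 8 * a) + 8 * a) := by
    intro g hg hst
    have hch := chain hT hl hη0 hg hst hη (l / 2) le_rfl
    have hidx : l - 1 - l / 2 + l / 2 = l - 1 := by omega
    rw [hidx] at hch
    have hexp : 2 ^ 17 * (24 * (l + 1)) ≤ 4 * 4 ^ (l - 1) := by
      refine (two_pow_ge l hl).trans ?_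
      have h4 : 4 * 4 ^ (l - 1) = 2 ^ (2 * (l - 1 + 1)) := by
        rw [pow_mul]
        norm_num [pow_succ]
        ring
      rw [h4]
      exact Nat.pow_le_pow_right (by norm_num) (by omega)
    have hm := (main_ineq hT.hPhi hT.hSimon hT.hTree hT.hEnt hT.hRank hη0 hg hst hη
      (Nat.one_le_pow _ 4 (by norm_num)) hexp).2
    have h5 : 4 * 4 ^ (l - 1) = 4 ^ l := by
      obtain ⟨d, rfl⟩ : ∃ d, l = d + 1 := ⟨l - 1, by omega⟩
      rw [Nat.add_sub_cancel, pow_succ]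
      ring
    rw [h5] at hm
    push_cast at hm
    rw [← hK] at hm hch
    have h6 := Psi_le_of_resV hT.hSub g (VV g (4 ^ l)) (fun y => hM n _ (SB_resV g (4 ^ l) y))
    have h7 := sum_wt_VV_le hT.hSimon g (4 ^ l)
    linarith
  have hfin := reduce_stuck hT.hSub (N := 2 ^ 17) (by norm_num) hstuck _ f le_rfl hf
  have htot : tot f ≤ K := by
    have := tot_le hf
    push_cast at this
    exact this
  have h8 : (1 / 2 : ℝ) ^ (24 * (l + 1)) * tot f ≤ a :=
    (mul_le_mul_of_nonneg_left htot hθ0.le).trans hKθ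
  linarith

theorem psi_bounded_pow (hT : Tasks) (d : ℕ) :
    ∀ (n : ℕ) (f : Q n → Bool), SB f (4 ^ (27 + d)) →
      Psi f ≤ 4 ^ 27 + 2 ^ 15 * (1 - (1 / 2) ^ (27 + d)) := by
  induction d with
  | zero =>
    intro n f hf
    have h1 := Psi_le_tot hT.hSimon f
    have h2 := tot_le hf
    push_cast at h2
    have h3 : (0 : ℝ) ≤ 2 ^ 15 * (1 - (1 / 2) ^ (27 + 0)) := by norm_num
    simp only [add_zero] at *
    linarith
  | succ d ih =>
    intro n f hf
    have h := step hT (l := 27 + d) (by omega) ih n f hf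
    refine h.trans (le_of_eq ?_)
    rw [← add_assoc, pow_succ (1 / 2 : ℝ) (27 + d)]
    ring

theorem psi_bounded (hT : Tasks) {n k : ℕ} {f : Q n → Bool} (hf : SB f k) :
    Psi f ≤ 4 ^ 27 + 2 ^ 15 := by
  have hk : k ≤ 4 ^ (27 + k) :=
    (Nat.lt_pow_self (by norm_num : 1 < 4)).le.trans (Nat.pow_le_pow_right (by norm_num) (by omega))
  have h := psi_bounded_pow hT k n f (SB_mono hf hk)
  have h2 : (0 : ℝ) < (1 / 2) ^ (27 + k) := by positivity
  linarith

theorem card_Rel_le (hT : Tasks) {n k : ℕ} {f : Q n → Bool} (hf : SB f k) :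
    ((Rel f).card : ℝ) ≤ (4 ^ 27 + 2 ^ 15) * 4 ^ k := by
  have h := psi_bounded hT hf
  have h1 : ((Rel f).card : ℝ) * (1 / 2) ^ (2 * k) ≤ Psi f := by
    unfold Psi
    rw [← nsmul_eq_mul, ← sum_const]
    apply sum_le_sum
    intro i _
    exact pow_le_pow_of_le_one (by norm_num) (by norm_num) (r_le hf i)
  have h2 : (1 / 2 : ℝ) ^ (2 * k) * 4 ^ k = 1 := by
    rw [pow_mul, ← mul_pow]
    norm_num
  have h3 : (0 : ℝ) < 4 ^ k := by positivity
  calc ((Rel f).card : ℝ) = ((Rel f).card : ℝ) * (1 / 2) ^ (2 * k) * 4 ^ k := by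
        rw [mul_assoc, h2, mul_one]
    _ ≤ (4 ^ 27 + 2 ^ 15) * 4 ^ k := mul_le_mul_of_nonneg_right (h1.trans h) h3.le

lemma eq_of_agree {n : ℕ} (f : Q n → Bool) (x y : Q n) (h : ∀ i ∈ Rel f, x i = y i) :
    f x = f y := by
  have key : ∀ (D : Finset (Fin n)) (z : Q n), (∀ i, i ∉ D → z i = y i) →
      (∀ i ∈ D, i ∉ Rel f) → f z = f y := by
    intro D
    induction D using Finset.induction_on with
    | empty =>
      intro z hz _
      congr 1
      funext i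
      exact hz i (notMem_empty i)
    | insert a D ha ih =>
      intro z hz hD
      have h1 : f (Function.update z a (y a)) = f y := by
        apply ih
        · intro i hi
          by_cases hia : i = a
          · subst hia
            simp
          · rw [Function.update_of_ne hia]
            exact hz i (by simp [hia, hi])
        · intro i hi
          exact hD i (mem_insert_of_mem hi)
      rw [← h1]
      by_cases hza : z a = y a
      · rw [← hza, Function.update_eq_self]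
      · have h2 : Function.update z a (y a) = fl z a := by
          unfold fl
          congr 1
          cases h3 : z a <;> cases h4 : y a <;> simp_all
        rw [h2]
        have h3 : a ∉ Sens f z := fun h => hD a (mem_insert_self a D) (Sens_subset_Rel f z h)
        rw [mem_Sens] at h3
        push Not at h3
        exact h3.symm
  apply key (univ.filter (fun i => x i ≠ y i)) x
  · intro i hi
    simpa using hi
  · intro i hi hR
    exact (mem_filter.1 hi).2 (h i hR)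

/-- Exact junta statement. -/
theorem junta (hT : Tasks) {n k : ℕ} (f : Q n → Bool) (hf : SB f k) :
    ∃ J : Finset (Fin n), (J.card : ℝ) ≤ (4 ^ 27 + 2 ^ 15) * 4 ^ k ∧
      ∀ x y : Q n, (∀ i ∈ J, x i = y i) → f x = f y :=
  ⟨Rel f, card_Rel_le hT hf, fun x y h => eq_of_agree f x y h⟩

end H184J
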