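import Pool.Agent.H184J.Stmts

set_option autoImplicit false

/-!
Moebius inversion for functions on finsets, and the coefficients `cf` under restrictions.
-/

namespace H184J.Moeb

open Finset

variable {α : Type*} [DecidableEq α] {R : Type*} [CommRing R]

/-- Moebius transform -/
def CF (g : Finset α → R) (S : Finset α) : R :=
  ∑ T ∈ S.powerset, (-1) ^ (S.card - T.card) * g T

lemma CF_empty (g : Finset α → R) : CF g ∅ = g ∅ := by
  simp [CF]

lemma CF_congr {g h : Finset α → R} {S : Finset α} (H : ∀ T ⊆ S, g T = h T) :
    CF g S = CF h S := by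
  unfold CF
  refine Finset.sum_congr rfl fun T hT => ?_
  rw [H T (Finset.mem_powerset.1 hT)]

lemma CF_insert (g : Finset α → R) {a : α} {S : Finset α} (ha : a ∉ S) :
    CF g (insert a S) = CF (fun T => g (insert a T)) S - CF g S := by
  unfold CF
  rw [Finset.sum_powerset_insert ha, add_comm, sub_eq_add_neg, ← Finset.sum_neg_distrib]
  congr 1
  · refine Finset.sum_congr rfl fun T hT => ?_
    have hT' := Finset.mem_powerset.1 hT
    have haT : a ∉ T := fun h => ha (hT' h)
    rw [Finset.card_insert_of_notMem ha, Finset.card_insert_of_notMem haT, Nat.add_sub_add_right]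
  · refine Finset.sum_congr rfl fun T hT => ?_
    have hT' := Finset.mem_powerset.1 hT
    have hc := Finset.card_le_card hT'
    rw [Finset.card_insert_of_notMem ha, Nat.succ_sub hc, pow_succ]
    ring

lemma CF_insert_zero (g : Finset α → R) {a : α} {S : Finset α} (ha : a ∉ S)
    (H : ∀ T ⊆ S, g (insert a T) = g T) : CF g (insert a S) = 0 := by
  rw [CF_insert g ha, CF_congr H, sub_self]

lemma CF_mem_zero (g : Finset α → R) {a : α} {S : Finset α} (ha : a ∈ S)
    (H : ∀ T ⊆ S.erase a, g (insert a T) = g T) : CF g S = 0 := by
  have := CF_insert_zero g (Finset.notMem_erase a S) H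
  rwa [Finset.insert_erase ha] at this

/-- Moebius inversion -/
lemma inversion (U : Finset α) : ∀ g : Finset α → R, ∑ S ∈ U.powerset, CF g S = g U := by
  induction U using Finset.induction_on with
  | empty => intro g; simp [CF]
  | insert a U ha ih =>
      intro g
      rw [Finset.sum_powerset_insert ha]
      have h1 : ∑ t ∈ U.powerset, CF g (insert a t) =
          ∑ t ∈ U.powerset, (CF (fun T => g (insert a T)) t - CF g t) := by
        refine Finset.sum_congr rfl fun t ht => ?_
        exact CF_insert g (fun h => ha (Finset.mem_powerset.1 ht h))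
      rw [h1, Finset.sum_sub_distrib, ih g, ih (fun T => g (insert a T))]
      ring

lemma CF_sum {ι : Type*} (s : Finset ι) (c : ι → R) (h : ι → Finset α → R) (S : Finset α) :
    CF (fun T => ∑ i ∈ s, c i * h i T) S = ∑ i ∈ s, c i * CF (h i) S := by
  unfold CF
  simp_rw [Finset.mul_sum]
  rw [Finset.sum_comm]
  refine Finset.sum_congr rfl fun i _ => Finset.sum_congr rfl fun T _ => ?_
  ring

/-- the binomial identity -/
lemma binom (p : R) (M : Finset α) : ∀ g : Finset α → R,
    ∑ N ∈ M.powerset, p ^ N.card * (1 - p) ^ (M.card - N.card) * g N =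
      ∑ K ∈ M.powerset, CF g K * p ^ K.card := by
  induction M using Finset.induction_on with
  | empty => intro g; simp [CF]
  | insert a M ha ih =>
      intro g
      rw [Finset.sum_powerset_insert ha, Finset.sum_powerset_insert ha]
      have h1 : ∑ N ∈ M.powerset, p ^ N.card * (1 - p) ^ ((insert a M).card - N.card) * g N =
          (1 - p) * ∑ N ∈ M.powerset, p ^ N.card * (1 - p) ^ (M.card - N.card) * g N := by
        rw [Finset.mul_sum]
        refine Finset.sum_congr rfl fun N hN => ?_
        have hc := Finset.card_le_card (Finset.mem_powerset.1 hN)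
        rw [Finset.card_insert_of_notMem ha, Nat.succ_sub hc, pow_succ]
        ring
      have h2 : ∑ N ∈ M.powerset, p ^ (insert a N).card *
          (1 - p) ^ ((insert a M).card - (insert a N).card) * g (insert a N) =
          p * ∑ N ∈ M.powerset, p ^ N.card * (1 - p) ^ (M.card - N.card) * g (insert a N) := by
        rw [Finset.mul_sum]
        refine Finset.sum_congr rfl fun N hN => ?_
        have haN : a ∉ N := fun h => ha (Finset.mem_powerset.1 hN h)
        rw [Finset.card_insert_of_notMem ha, Finset.card_insert_of_notMem haN,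
          Nat.add_sub_add_right, pow_succ]
        ring
      have h3 : ∑ K ∈ M.powerset, CF g (insert a K) * p ^ (insert a K).card =
          p * ∑ K ∈ M.powerset, CF (fun T => g (insert a T)) K * p ^ K.card -
          p * ∑ K ∈ M.powerset, CF g K * p ^ K.card := by
        rw [Finset.mul_sum, Finset.mul_sum, ← Finset.sum_sub_distrib]
        refine Finset.sum_congr rfl fun K hK => ?_
        have haK : a ∉ K := fun h => ha (Finset.mem_powerset.1 hK h)
        rw [Finset.card_insert_of_notMem haK, CF_insert g haK, pow_succ]
        ring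
      rw [h1, h2, h3, ih g, ih (fun T => g (insert a T))]
      ring

section cfs

variable {n : ℕ}

lemma cf_eq (f : Q n → Bool) (S : Finset (Fin n)) :
    cf f S = CF (fun T => v01 (f (pt T))) S := rfl

lemma cf_inversion (f : Q n → Bool) (U : Finset (Fin n)) :
    ∑ S ∈ U.powerset, cf f S = v01 (f (pt U)) :=
  inversion U (fun T => v01 (f (pt T)))

lemma update_pt_false {a : Fin n} {T : Finset (Fin n)} :
    Function.update (pt T) a false = pt (T.erase a) := by
  funext i
  by_cases h : i = a
  · subst h; simp [pt]
  · simp [pt, Function.update_of_ne h, h]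

lemma update_pt_true {a : Fin n} {T : Finset (Fin n)} :
    Function.update (pt T) a true = pt (insert a T) := by
  funext i
  by_cases h : i = a
  · subst h; simp [pt]
  · simp [pt, Function.update_of_ne h, h]

lemma cf_res_mem (f : Q n → Bool) {a : Fin n} (b : Bool) {S : Finset (Fin n)} (ha : a ∈ S) :
    cf (res f a b) S = 0 := by
  rw [cf_eq]
  refine CF_mem_zero _ ha fun T hT => ?_
  cases b
  · simp only [res, update_pt_false, Finset.erase_insert_eq_erase]
  · simp only [res, update_pt_true, Finset.insert_idem]

lemma cf_res_false (f : Q n → Bool) {a : Fin n} {S : Finset (Fin n)} (ha : a ∉ S) :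
    cf (res f a false) S = cf f S := by
  rw [cf_eq, cf_eq]
  refine CF_congr fun T hT => ?_
  have : a ∉ T := fun h => ha (hT h)
  simp only [res, update_pt_false, Finset.erase_eq_of_notMem this]

lemma cf_res_true (f : Q n → Bool) {a : Fin n} {S : Finset (Fin n)} (ha : a ∉ S) :
    cf (res f a true) S = cf f S + cf f (insert a S) := by
  rw [cf_eq, cf_eq, cf_eq, CF_insert _ ha]
  have : CF (fun T => v01 (res f a true (pt T))) S =
      CF (fun T => v01 (f (pt (insert a T)))) S := by
    refine CF_congr fun T hT => ?_
    simp only [res, update_pt_true]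
  rw [this]; ring

end cfs

end H184J.Moeb
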