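import Pool.Agent.H184J.Defs

set_option autoImplicit false

/-!
Task statements. Each task: prove `theorem taskX : TaskX` in a new file `Pool/Agent/H184J/TX.lean`
(namespace `H184J.TX`), importing this file (and `Basic` if useful).
-/

namespace H184J

open Finset

/-- sub-martingale property of the weights. -/
def TaskSub : Prop := ∀ (n : ℕ) (f : Q n → Bool) (a j : Fin n), j ≠ a → j ∈ Rel f →
  (1 / 2 : ℝ) ^ (r f j) ≤ (1 / 2) *
    ((if j ∈ Rel (res f a false) then (1 / 2 : ℝ) ^ (r (res f a false) j) else 0) +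
     (if j ∈ Rel (res f a true) then (1 / 2 : ℝ) ^ (r (res f a true) j) else 0))

/-- Simon's lemma. -/
def TaskSimon : Prop := ∀ (n : ℕ) (f : Q n → Bool) (i : Fin n), i ∈ Rel f →
  (1 / 2 : ℝ) ^ (r f i) ≤ Inf f i

/-- OSSS plus edge counting. -/
def TaskOsss : Prop := ∀ (n D k : ℕ) (f : Q n → Bool) (θ : ℝ), 0 ≤ θ → DT D f → SB f k →
  (∀ i, Inf f i ≤ θ) → tot f ≤ 2 * k * D * θ

/-- Huang's theorem. -/
def TaskHuang : Prop := ∀ (m : ℕ) (H : Finset (Q (m + 1))), 2 ^ m < H.card →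
  ∃ q ∈ H, m + 1 ≤ (univ.filter (fun i => fl q i ∈ H)).card ^ 2

/-- Gotsman-Linial: degree at most the square of the sensitivity. -/
def TaskGL : Prop := TaskHuang → ∀ (n k : ℕ) (f : Q n → Bool) (S : Finset (Fin n)), SB f k →
  cf f S ≠ 0 → S.card ≤ k ^ 2

/-- Markov type bound. -/
def TaskMarkov : Prop := ∀ (P : Polynomial ℝ) (d : ℕ), P.natDegree ≤ d →
  (∀ p : ℝ, 0 ≤ p → p ≤ 1 → 0 ≤ P.eval p ∧ P.eval p ≤ 1) →
  |P.derivative.eval 0| ≤ 4 * (d : ℝ) ^ 2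

/-- at most `4 d^2` disjoint monomials of maximal degree. -/
def TaskDisj : Prop := TaskMarkov → ∀ (n d : ℕ) (f : Q n → Bool), 1 ≤ d →
  (∀ S, cf f S ≠ 0 → S.card ≤ d) → ∀ M : Finset (Finset (Fin n)),
  (∀ S ∈ M, S.card = d ∧ cf f S ≠ 0) → (M : Set (Finset (Fin n))).PairwiseDisjoint id →
  M.card ≤ 4 * d ^ 2

/-- decision tree depth at most `4 d^4`. -/
def TaskDT : Prop := TaskMarkov → TaskDisj → ∀ (n d : ℕ) (f : Q n → Bool),
  (∀ S, cf f S ≠ 0 → S.card ≤ d) → DT (4 * d ^ 4) f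

/-- existence of good trees. -/
def TaskTree : Prop := ∀ (n : ℕ) (f : Q n → Bool) (θ : ℝ), 0 < θ → ∃ T : Tr n, Good θ f T

/-- convexity inequality for the entropy induction. -/
def TaskPhi : Prop := ∀ a b : ℝ, 0 ≤ a → 0 ≤ b →
  Real.negMulLog ((a + b) / 2) ≤ (1 / 2) * Real.negMulLog a + (1 / 2) * Real.negMulLog b +
    (1 / 2) * Real.log 2 * |a - b|

/-- entropy bound along a good tree. -/
def TaskEnt : Prop := TaskPhi → TaskSimon → ∀ (n k : ℕ) (f : Q n → Bool) (θ η : ℝ) (T : Tr n),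
  0 < θ → θ ≤ 1 → SB f k → Good θ f T →
  (∀ g : Q n → Bool, SB g k → (∀ i, Inf g i < θ) → tot g ≤ η) →
  ∀ V : Finset (Fin n),
    ∑ i ∈ V, Real.negMulLog (Inf f i) ≤
      Real.log 2 * ∑ i ∈ V, A T f i + Real.log (1 / θ) * ∑ i ∈ V, Inf f i +
        2 * k * Real.log 2 * η

/-- the rank argument. -/
def TaskRank : Prop := ∀ (n : ℕ) (f : Q n → Bool) (T : Tr n) (V : Finset (Fin n)),
  ∑ i ∈ V, A T f i ≤ 2 * (X2 f V + Y2 f V)

end H184J
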