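import Pool.Agent.H184J.Moebius

set_option autoImplicit false

namespace H184J.TDT

open Finset H184J.Moeb

lemma DT_mono {n : ℕ} {D : ℕ} {f : Q n → Bool} (h : DT D f) : ∀ {D' : ℕ}, D ≤ D' → DT D' f := by
  induction h with
  | const D f h => intro D' _; exact DT.const D' f h
  | query D f a _ _ ih0 ih1 =>
      intro D' hD
      obtain ⟨E, rfl⟩ : ∃ E, D' = E + 1 := ⟨D' - 1, by omega⟩
      exact DT.query E f a (ih0 (by omega)) (ih1 (by omega))

/-- querying a set `W` which meets all monomials of size `d` -/
lemma query_set {n : ℕ} (d D' : ℕ)
    (hD : ∀ g : Q n → Bool, (∀ S, cf g S ≠ 0 → S.card + 1 ≤ d) → DT D' g)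
    (W : Finset (Fin n)) : ∀ f : Q n → Bool, (∀ S, cf f S ≠ 0 → S.card ≤ d) →
      (∀ S, cf f S ≠ 0 → S.card = d → (S ∩ W).Nonempty) → DT (D' + W.card) f := by
  induction W using Finset.induction_on with
  | empty =>
      intro f h1 h2
      simp only [Finset.card_empty, add_zero]
      refine hD f fun S hS => ?_
      have := h1 S hS
      rcases Nat.lt_or_ge S.card d with h | h
      · omega
      · exfalso
        have h3 := h2 S hS (le_antisymm this h)
        simp at h3
  | insert a W ha ih =>
      intro f h1 h2
      rw [Finset.card_insert_of_notMem ha, ← add_assoc]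
      have key : ∀ S : Finset (Fin n), a ∉ S → (S ∩ insert a W).Nonempty → (S ∩ W).Nonempty := by
        intro S haS hne
        obtain ⟨x, hx⟩ := hne
        rw [Finset.mem_inter, Finset.mem_insert] at hx
        rcases hx with ⟨hxS, rfl | hxW⟩
        · exact absurd hxS haS
        · exact ⟨x, Finset.mem_inter.2 ⟨hxS, hxW⟩⟩
      refine DT.query _ f a (ih _ ?_ ?_) (ih _ ?_ ?_)
      · intro S hS
        have haS : a ∉ S := fun h => hS (cf_res_mem f false h)
        rw [cf_res_false f haS] at hS
        exact h1 S hS
      · intro S hS hc
        have haS : a ∉ S := fun h => hS (cf_res_mem f false h)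
        rw [cf_res_false f haS] at hS
        exact key S haS (h2 S hS hc)
      · intro S hS
        have haS : a ∉ S := fun h => hS (cf_res_mem f true h)
        rw [cf_res_true f haS] at hS
        by_cases h3 : cf f (insert a S) = 0
        · rw [h3, add_zero] at hS
          exact h1 S hS
        · have := h1 _ h3
          rw [Finset.card_insert_of_notMem haS] at this
          omega
      · intro S hS hc
        have haS : a ∉ S := fun h => hS (cf_res_mem f true h)
        rw [cf_res_true f haS] at hS
        by_cases h3 : cf f (insert a S) = 0
        · rw [h3, add_zero] at hS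
          exact key S haS (h2 S hS hc)
        · have := h1 _ h3
          rw [Finset.card_insert_of_notMem haS] at this
          omega

lemma const_of_deg_zero {n : ℕ} (f : Q n → Bool) (h : ∀ S, cf f S ≠ 0 → S.card ≤ 0) :
    ∀ x y, f x = f y := by
  have key : ∀ x : Q n, v01 (f x) = v01 (f (pt ∅)) := by
    intro x
    have hx : x = pt (univ.filter (fun i => x i = true)) := by
      funext i
      simp [pt]
    rw [hx, ← cf_inversion f, ← cf_inversion f]
    rw [Finset.powerset_empty, Finset.sum_singleton]
    rw [Finset.sum_eq_single (∅ : Finset (Fin n))]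
    · intro S _ hS
      by_contra hne
      have := h S hne
      exact hS (Finset.card_eq_zero.1 (by omega))
    · intro hne
      exact absurd (Finset.mem_powerset.2 (Finset.empty_subset _)) hne
  intro x y
  have hxy : v01 (f x) = v01 (f y) := by rw [key x, key y]
  revert hxy
  cases f x <;> cases f y <;> simp [v01]

theorem taskDT : TaskDT := by
  intro hMk hDj n d
  induction d with
  | zero =>
      intro f h
      exact DT.const _ f (const_of_deg_zero f h)
  | succ d ih =>
      intro f h
      classical
      set F : Finset (Finset (Fin n)) :=
        univ.filter (fun S => S.card = d + 1 ∧ cf f S ≠ 0) with hF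
      set C : Finset (Finset (Finset (Fin n))) :=
        F.powerset.filter (fun M => (M : Set (Finset (Fin n))).PairwiseDisjoint id) with hC
      have hCne : C.Nonempty := ⟨∅, by simp [hC]⟩
      obtain ⟨M, hMC, hmax⟩ := Finset.exists_max_image C Finset.card hCne
      rw [hC, Finset.mem_filter, Finset.mem_powerset] at hMC
      obtain ⟨hMF, hMdis⟩ := hMC
      have hMprop : ∀ S ∈ M, S.card = d + 1 ∧ cf f S ≠ 0 := by
        intro S hS
        have := hMF hS
        rw [hF, Finset.mem_filter] at this
        exact this.2
      have hMcard : M.card ≤ 4 * (d + 1) ^ 2 :=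
        hDj hMk n (d + 1) f (by omega) h M hMprop hMdis
      set W : Finset (Fin n) := M.biUnion id with hW
      have hWcard : W.card ≤ 4 * (d + 1) ^ 3 := by
        calc W.card ≤ ∑ S ∈ M, (id S).card := Finset.card_biUnion_le
          _ = ∑ S ∈ M, (d + 1) := Finset.sum_congr rfl fun S hS => (hMprop S hS).1
          _ = M.card * (d + 1) := by rw [Finset.sum_const, smul_eq_mul]
          _ ≤ 4 * (d + 1) ^ 2 * (d + 1) := Nat.mul_le_mul_right _ hMcard
          _ = 4 * (d + 1) ^ 3 := by ring
      have hmeet : ∀ S, cf f S ≠ 0 → S.card = d + 1 → (S ∩ W).Nonempty := by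
        intro S hS hc
        by_contra hne
        rw [Finset.not_nonempty_iff_eq_empty] at hne
        have hSne : S.Nonempty := Finset.card_pos.1 (by omega)
        have hSM : S ∉ M := by
          intro hmem
          have : S ⊆ W := by
            intro x hx
            rw [hW, Finset.mem_biUnion]
            exact ⟨S, hmem, hx⟩
          rw [Finset.inter_eq_left.2 this] at hne
          exact hSne.ne_empty hne
        have hnew : insert S M ∈ C := by
          rw [hC, Finset.mem_filter, Finset.mem_powerset]
          refine ⟨?_, ?_⟩
          · intro T hT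
            rcases Finset.mem_insert.1 hT with rfl | hT
            · rw [hF, Finset.mem_filter]
              exact ⟨Finset.mem_univ _, hc, hS⟩
            · exact hMF hT
          · rw [Finset.coe_insert]
            refine hMdis.insert fun T hT _ => ?_
            simp only [id]
            rw [Finset.disjoint_left]
            intro x hxS hxT
            have : x ∈ S ∩ W := by
              rw [Finset.mem_inter, hW, Finset.mem_biUnion]
              exact ⟨hxS, T, hT, hxT⟩
            rw [hne] at this
            simp at this
        have := hmax _ hnew
        rw [Finset.card_insert_of_notMem hSM] at this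
        omega
      have hq := query_set (d + 1) (4 * d ^ 4)
        (fun g hg => ih g (fun S hS => by have := hg S hS; omega)) W f h hmeet
      refine DT_mono hq ?_
      have hp : (d + 1) ^ 4 = d ^ 4 + (d + 1) ^ 3 + (3 * d ^ 3 + 3 * d ^ 2 + d) := by ring
      rw [hp]
      omega

end H184J.TDT
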