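import Pool.Agent.H184J.Moebius

set_option autoImplicit false

namespace H184J.TDisj

open Finset H184J.Moeb

theorem taskDisj : TaskDisj := by
  intro hMk n d f hd hdeg M hM hdis
  classical
  have hex : ∀ S ∈ M, ∃ T, T ⊆ S ∧ f (pt T) ≠ f (pt ∅) := by
    intro S hS
    by_contra hcon
    push Not at hcon
    obtain ⟨hc, hne⟩ := hM S hS
    have hSne : S.Nonempty := Finset.card_pos.1 (by omega)
    obtain ⟨a, ha⟩ := hSne
    apply hne
    rw [cf_eq]
    refine CF_mem_zero _ ha fun T hT => ?_
    have h2 : T ⊆ S := hT.trans (Finset.erase_subset _ _)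
    have h1 : insert a T ⊆ S := Finset.insert_subset ha h2
    simp only [hcon _ h1, hcon _ h2]
  let U : Finset (Fin n) → Finset (Fin n) := fun S =>
    if h : ∃ T, T ⊆ S ∧ f (pt T) ≠ f (pt ∅) then h.choose else ∅
  have hUsub : ∀ S, U S ⊆ S := by
    intro S
    by_cases h : ∃ T, T ⊆ S ∧ f (pt T) ≠ f (pt ∅)
    · have : U S = h.choose := dif_pos h
      rw [this]
      exact h.choose_spec.1
    · have : U S = ∅ := dif_neg h
      rw [this]
      exact Finset.empty_subset _
  have hUne : ∀ S ∈ M, f (pt (U S)) ≠ f (pt ∅) := by
    intro S hS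
    have h := hex S hS
    have : U S = h.choose := dif_pos h
    rw [this]
    exact h.choose_spec.2
  let v : Finset (Finset (Fin n)) → ℝ := fun N => ((v01 (f (pt (N.biUnion U))) : ℤ) : ℝ)
  have hv01 : ∀ N, 0 ≤ v N ∧ v N ≤ 1 := by
    intro N
    simp only [v]
    cases f (pt (N.biUnion U)) <;> simp [v01]
  have hvsum : v = fun N => ∑ S ∈ (univ : Finset (Finset (Fin n))),
      ((cf f S : ℤ) : ℝ) * (if S ⊆ N.biUnion U then (1 : ℝ) else 0) := by
    funext N
    simp only [v]
    rw [← cf_inversion f, Int.cast_sum]
    simp only [mul_ite, mul_one, mul_zero]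
    rw [← Finset.sum_filter]
    refine Finset.sum_congr ?_ fun _ _ => rfl
    ext S
    simp
  have hCF0 : ∀ K ⊆ M, d < K.card → CF v K = 0 := by
    intro K hK hKd
    rw [hvsum, CF_sum]
    refine Finset.sum_eq_zero fun S _ => ?_
    by_cases hS : cf f S = 0
    · rw [hS]; simp
    · have hSd := hdeg S hS
      have hblock : ∃ B ∈ K, Disjoint S (U B) := by
        by_contra hcon
        push Not at hcon
        have h1 : (K.biUnion (fun B => S ∩ U B)).card = ∑ B ∈ K, (S ∩ U B).card := by
          refine Finset.card_biUnion fun B hB B' hB' hne => ?_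
          have hd1 : Disjoint B B' := hdis (hK hB) (hK hB') hne
          exact Finset.disjoint_of_subset_left (Finset.inter_subset_right.trans (hUsub B))
            (Finset.disjoint_of_subset_right (Finset.inter_subset_right.trans (hUsub B')) hd1)
        have h2 : K.biUnion (fun B => S ∩ U B) ⊆ S := by
          intro x hx
          rw [Finset.mem_biUnion] at hx
          obtain ⟨B, _, hx⟩ := hx
          exact (Finset.mem_inter.1 hx).1
        have h3 : K.card ≤ ∑ B ∈ K, (S ∩ U B).card := by
          rw [Finset.card_eq_sum_ones]
          refine Finset.sum_le_sum fun B hB => ?_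
          rw [Nat.one_le_iff_ne_zero, Finset.card_ne_zero]
          have := hcon B hB
          rw [Finset.disjoint_iff_inter_eq_empty] at this
          exact Finset.nonempty_iff_ne_empty.2 this
        have h4 := Finset.card_le_card h2
        omega
      obtain ⟨B, hB, hdisj⟩ := hblock
      rw [CF_mem_zero _ hB, mul_zero]
      intro T _
      have : (S ⊆ (insert B T).biUnion U) ↔ S ⊆ T.biUnion U := by
        rw [Finset.biUnion_insert]
        constructor
        · intro h x hx
          rcases Finset.mem_union.1 (h hx) with h1 | h1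
          · exact absurd h1 (Finset.disjoint_left.1 hdisj hx)
          · exact h1
        · intro h
          exact h.trans Finset.subset_union_right
      simp only [this]
  let P : Polynomial ℝ := ∑ K ∈ M.powerset, Polynomial.C (CF v K) * Polynomial.X ^ K.card
  have hPdeg : P.natDegree ≤ d := by
    refine Polynomial.natDegree_sum_le_of_forall_le _ _ fun K hK => ?_
    rcases Nat.lt_or_ge d K.card with h | h
    · rw [hCF0 K (Finset.mem_powerset.1 hK) h]
      simp
    · exact (Polynomial.natDegree_C_mul_X_pow_le _ _).trans h
  have hPeval : ∀ p : ℝ, P.eval p =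
      ∑ N ∈ M.powerset, p ^ N.card * (1 - p) ^ (M.card - N.card) * v N := by
    intro p
    rw [binom p M v]
    simp only [P, Polynomial.eval_finset_sum, Polynomial.eval_mul, Polynomial.eval_C,
      Polynomial.eval_pow, Polynomial.eval_X]
  have hP01 : ∀ p : ℝ, 0 ≤ p → p ≤ 1 → 0 ≤ P.eval p ∧ P.eval p ≤ 1 := by
    intro p hp0 hp1
    have hw : ∀ N : Finset (Finset (Fin n)), 0 ≤ p ^ N.card * (1 - p) ^ (M.card - N.card) :=
      fun N => mul_nonneg (pow_nonneg hp0 _) (pow_nonneg (by linarith) _)
    rw [hPeval p]
    refine ⟨Finset.sum_nonneg fun N _ => mul_nonneg (hw N) (hv01 N).1, ?_⟩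
    calc ∑ N ∈ M.powerset, p ^ N.card * (1 - p) ^ (M.card - N.card) * v N
        ≤ ∑ N ∈ M.powerset, p ^ N.card * (1 - p) ^ (M.card - N.card) :=
          Finset.sum_le_sum fun N _ => mul_le_of_le_one_right (hw N) (hv01 N).2
      _ = (p + (1 - p)) ^ M.card := Finset.sum_pow_mul_eq_add_pow _ _ _
      _ = 1 := by simp
  have hder : P.derivative.eval 0 = ∑ S ∈ M, (v {S} - v ∅) := by
    rw [← Polynomial.coeff_zero_eq_eval_zero, Polynomial.coeff_derivative]
    have h1 : P.coeff (0 + 1) = ∑ S ∈ M, (v {S} - v ∅) := by
      simp only [P, Polynomial.finset_sum_coeff, Polynomial.coeff_C_mul_X_pow, zero_add]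
      have h2 : ∀ K : Finset (Finset (Fin n)), (if 1 = K.card then CF v K else 0) =
          if K.card = 1 then CF v K else 0 := by
        intro K
        by_cases h : K.card = 1
        · simp [h]
        · rw [if_neg h, if_neg (fun h' => h h'.symm)]
      simp only [h2]
      rw [← Finset.sum_filter, ← Finset.powersetCard_eq_filter, Finset.powersetCard_one,
        Finset.sum_map]
      refine Finset.sum_congr rfl fun S _ => ?_
      have h3 : CF v {S} = v {S} - v ∅ := by
        have := CF_insert v (Finset.notMem_empty S)
        rw [CF_empty, CF_empty] at this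
        exact this
      exact h3
    rw [h1]
    simp
  have hvS : ∀ S, v {S} = ((v01 (f (pt (U S))) : ℤ) : ℝ) := by
    intro S
    simp only [v, Finset.singleton_biUnion]
  have hv0 : v ∅ = ((v01 (f (pt ∅)) : ℤ) : ℝ) := by
    simp only [v, Finset.biUnion_empty]
  have habs : |P.derivative.eval 0| = M.card := by
    rw [hder]
    cases h0 : f (pt ∅) with
    | false =>
        have : ∀ S ∈ M, v {S} - v ∅ = 1 := by
          intro S hS
          have h1 := hUne S hS
          rw [h0] at h1
          have h2 : f (pt (U S)) = true := by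
            cases h3 : f (pt (U S)) with
            | false => exact absurd h3 h1
            | true => rfl
          rw [hvS, hv0, h0, h2]
          simp [v01]
        rw [Finset.sum_congr rfl this]
        simp
    | true =>
        have : ∀ S ∈ M, v {S} - v ∅ = -1 := by
          intro S hS
          have h1 := hUne S hS
          rw [h0] at h1
          have h2 : f (pt (U S)) = false := by
            cases h3 : f (pt (U S)) with
            | false => rfl
            | true => exact absurd h3 h1
          rw [hvS, hv0, h0, h2]
          simp [v01]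
        rw [Finset.sum_congr rfl this]
        simp
  have hfin := hMk P d hPdeg hP01
  rw [habs] at hfin
  exact_mod_cast hfin

end H184J.TDisj
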