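import Pool.Agent.H184J.Stmts
import Pool.Agent.H184J.HuangArchive

set_option autoImplicit false

namespace H184J.THuang

open Finset

theorem taskHuang : H184J.TaskHuang := by
  classical
  intro m H hH
  have hH' : (Set.toFinset (H : Set (Fin (m+1) → Bool))).card ≥ 2 ^ m + 1 := by
    simpa using hH
  obtain ⟨q, hq, hle⟩ := H184J.Huang.huang_degree_theorem (m := m) (H : Set (Fin (m+1) → Bool)) (by convert hH')
  refine ⟨q, by simpa using hq, ?_⟩
  set K : Finset (Fin (m+1) → Bool) :=
    Set.toFinset ((H : Set (Fin (m+1) → Bool)) ∩ H184J.Huang.Q.adjacent q) with hK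
  have hcard : K.card ≤ (univ.filter (fun i => fl q i ∈ H)).card := by
    have hsub : K ⊆ (univ.filter (fun i => fl q i ∈ H)).image (fun i => fl q i) := by
      intro p hp
      rw [hK, Set.mem_toFinset] at hp
      obtain ⟨hpH, i, hi, huni⟩ := hp
      rw [Finset.mem_image]
      have hpe : fl q i = p := by
        funext j
        unfold fl
        by_cases hj : j = i
        · subst hj
          simp only [Function.update_self]
          cases h1 : q j <;> cases h2 : p j <;> simp_all
        · rw [Function.update_of_ne hj]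
          by_contra hne
          exact hj (huni j hne)
      refine ⟨i, ?_, hpe⟩
      rw [Finset.mem_filter]
      exact ⟨Finset.mem_univ _, by rw [hpe]; simpa using hpH⟩
    exact (Finset.card_le_card hsub).trans Finset.card_image_le
  have h0 : ((Set.toFinset ((H : Set (Fin (m+1) → Bool)) ∩ H184J.Huang.Q.adjacent q)).card : ℝ)
      ≤ ((univ.filter (fun i => fl q i ∈ H)).card : ℝ) := by
    exact_mod_cast hcard
  have h1 : Real.sqrt (m+1) ≤ ((univ.filter (fun i => fl q i ∈ H)).card : ℝ) := by
    refine hle.trans ?_
    refine le_trans (le_of_eq ?_) h0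
    congr!
  have h2 : ((m : ℝ) + 1) ≤ ((univ.filter (fun i => fl q i ∈ H)).card : ℝ) ^ 2 := by
    have h3 := Real.sq_sqrt (show (0:ℝ) ≤ (m:ℝ)+1 by positivity)
    have h4 := Real.sqrt_nonneg ((m:ℝ)+1)
    nlinarith
  exact_mod_cast h2

end H184J.THuang
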