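import Pool.Agent.H184J.Stmts

set_option autoImplicit false

namespace H184J.TMarkov

open Polynomial Polynomial.Chebyshev

/-- one-sided bound at the right end point of `[-1,1]` -/
lemma deriv_one_le {Q : ℝ[X]} {d : ℕ} (hd : Q.natDegree ≤ d)
    (hb : ∀ x ∈ Set.Icc (-1 : ℝ) 1, |Q.eval x| ≤ 1) : (derivative Q).eval 1 ≤ (d : ℝ) ^ 2 := by
  have h := eval_iterate_derivative_le_of_forall_abs_le_one (n := d) (P := Q) (k := 1) (x := 1)
    le_rfl (natDegree_le_iff_degree_le.mp hd) hb
  simp only [Function.iterate_one] at h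
  rw [T_derivative_eq_U] at h
  simp only [eval_mul, U_eval_one, eval_intCast] at h
  push_cast at h
  nlinarith [h]

theorem taskMarkov : TaskMarkov := by
  intro P d hP hb
  set L : ℝ[X] := C (1 / 2) - C (1 / 2) * X with hL
  have hLdeg : L.natDegree ≤ 1 := by
    rw [hL]
    refine (natDegree_sub_le _ _).trans (max_le ?_ ?_)
    · rw [natDegree_C]; exact Nat.zero_le _
    · exact (natDegree_C_mul_le _ _).trans natDegree_X_le
  set Q : ℝ[X] := C 2 * P.comp L - 1 with hQ
  have hQdeg : Q.natDegree ≤ d := by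
    rw [hQ]
    refine (natDegree_sub_le _ _).trans (max_le ?_ ?_)
    · refine (natDegree_C_mul_le _ _).trans (natDegree_comp_le.trans ?_)
      calc P.natDegree * L.natDegree ≤ d * 1 := Nat.mul_le_mul hP hLdeg
        _ = d := Nat.mul_one d
    · rw [natDegree_one]; exact Nat.zero_le _
  have hLe : ∀ x : ℝ, L.eval x = (1 - x) / 2 := by
    intro x
    rw [hL]; simp; ring
  have hQb : ∀ x ∈ Set.Icc (-1 : ℝ) 1, |Q.eval x| ≤ 1 := by
    intro x hx
    have h1 := hb ((1 - x) / 2) (by linarith [hx.2]) (by linarith [hx.1])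
    have h2 : Q.eval x = 2 * P.eval ((1 - x) / 2) - 1 := by
      rw [hQ]; simp [hLe]
    rw [h2, abs_le]
    constructor <;> linarith [h1.1, h1.2]
  have hQ' : (derivative Q).eval 1 = -(derivative P).eval 0 := by
    have h0 : derivative L = C (-(1 / 2 : ℝ)) := by
      rw [hL]
      simp [derivative_sub]
    rw [hQ]
    simp only [derivative_sub, derivative_C_mul, derivative_comp, derivative_one, sub_zero, h0]
    simp only [eval_mul, eval_C, eval_comp, hLe]
    norm_num
    ring
  have h1 := deriv_one_le hQdeg hQb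
  have h2 := deriv_one_le (Q := -Q) (d := d) (by rw [natDegree_neg]; exact hQdeg)
    (fun x hx => by rw [eval_neg, abs_neg]; exact hQb x hx)
  rw [derivative_neg, eval_neg, hQ'] at h2
  rw [hQ'] at h1
  have h3 : (0 : ℝ) ≤ (d : ℝ) ^ 2 := by positivity
  rw [abs_le]
  constructor <;> linarith

end H184J.TMarkov
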