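import Pool.Agent.H184J.Stmts

set_option autoImplicit false

/-!
OSSS for decision trees plus edge counting (`TaskOsss`).
-/

namespace H184J.TOsss

open Finset H184J

theorem fl_fl {n : ℕ} (x : Q n) (i : Fin n) : fl (fl x i) i = x := by
  unfold fl
  funext j
  by_cases h : j = i
  · subst h; simp
  · simp [Function.update_of_ne h]

theorem E_fl {n : ℕ} (u : Q n → ℝ) (a : Fin n) : E (fun x => u (fl x a)) = E u := by
  unfold E
  congr 1
  exact Equiv.sum_comp
    (Function.Involutive.toPerm (fun x : Q n => fl x a) (fun x => fl_fl x a)) u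

theorem E_add {n : ℕ} (u v : Q n → ℝ) : E (fun x => u x + v x) = E u + E v := by
  unfold E
  rw [Finset.sum_add_distrib, add_div]

theorem E_sub {n : ℕ} (u v : Q n → ℝ) : E (fun x => u x - v x) = E u - E v := by
  unfold E
  rw [Finset.sum_sub_distrib, sub_div]

theorem E_const {n : ℕ} (c : ℝ) : E (fun _ : Q n => c) = c := by
  unfold E
  rw [Finset.sum_const, Finset.card_univ]
  simp

theorem E_mul_left {n : ℕ} (c : ℝ) (u : Q n → ℝ) : E (fun x => c * u x) = c * E u := by
  unfold E
  rw [← Finset.mul_sum, mul_div_assoc]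

theorem E_mono {n : ℕ} {u v : Q n → ℝ} (h : ∀ x, u x ≤ v x) : E u ≤ E v := by
  unfold E
  exact div_le_div_of_nonneg_right (Finset.sum_le_sum fun x _ => h x) (by positivity)

theorem abs_E_le {n : ℕ} (u : Q n → ℝ) : |E u| ≤ E (fun x => |u x|) := by
  unfold E
  rw [abs_div, abs_of_pos (by positivity : (0:ℝ) < 2 ^ n)]
  exact div_le_div_of_nonneg_right (Finset.abs_sum_le_sum_abs _ _) (by positivity)

/-- the real 0/1 function -/
noncomputable def R {n : ℕ} (f : Q n → Bool) : Q n → ℝ := fun x => if f x then 1 else 0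

theorem R_nonneg {n : ℕ} (f : Q n → Bool) (x : Q n) : 0 ≤ R f x := by
  unfold R; split_ifs <;> norm_num

theorem R_le {n : ℕ} (f : Q n → Bool) (x : Q n) : R f x ≤ 1 := by
  unfold R; split_ifs <;> norm_num

theorem R_sq {n : ℕ} (f : Q n → Bool) (x : Q n) : R f x * R f x = R f x := by
  unfold R; split_ifs <;> norm_num

theorem update_eq {n : ℕ} (x : Q n) (a : Fin n) (b : Bool) :
    Function.update x a b = if x a = b then x else fl x a := by
  split_ifs with h
  · subst h; exact Function.update_eq_self a x
  · unfold fl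
    congr 1
    cases hb : b <;> cases hx : x a <;> simp_all

theorem R_res {n : ℕ} (f : Q n → Bool) (a : Fin n) (x : Q n) :
    R (res f a false) x + R (res f a true) x = R f x + R f (fl x a) := by
  unfold R res
  rw [update_eq x a false, update_eq x a true]
  cases hx : x a
  · simp
  · simp [add_comm]

theorem absR {n : ℕ} (g : Q n → Bool) (a : Fin n) (x : Q n) :
    |R g x - R g (fl x a)| = if a ∈ Sens g x then 1 else 0 := by
  unfold R Sens
  simp only [mem_filter, mem_univ, true_and]
  cases h1 : g x <;> cases h2 : g (fl x a) <;> simp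

theorem osss {n : ℕ} (g : Q n → Bool) (th : ℝ) (hth : 0 ≤ th) (hg : ∀ i, Inf g i ≤ th)
    (D : ℕ) (f : Q n → Bool) (hD : DT D f) :
    |E (fun x => R f x * R g x) - E (R f) * E (R g)| ≤ D * th / 2 := by
  induction hD with
  | const D f h =>
    have h0 : ∀ x, R f x = R f (fun _ => false) := fun x => by
      unfold R; rw [h x (fun _ => false)]
    have e1 : E (fun x => R f x * R g x) = R f (fun _ => false) * E (R g) := by
      rw [← E_mul_left]
      congr 1
      funext x
      rw [h0 x]
    have e2 : E (R f) = R f (fun _ => false) := by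
      rw [← E_const (n := n) (R f (fun _ => false))]
      congr 1
      funext x
      exact h0 x
    rw [e1, e2, sub_self, abs_zero]
    positivity
  | query D f a h0 h1 ih0 ih1 =>
    have eF : E (R (res f a false)) + E (R (res f a true)) = 2 * E (R f) := by
      rw [← E_add]
      have : (fun x => R (res f a false) x + R (res f a true) x)
          = fun x => R f x + R f (fl x a) := by
        funext x; exact R_res f a x
      rw [this, E_add, E_fl (R f) a]
      ring
    have eFG : E (fun x => R (res f a false) x * R g x) + E (fun x => R (res f a true) x * R g x)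
        = E (fun x => R f x * R g x) + E (fun x => R f x * R g (fl x a)) := by
      rw [← E_add]
      have : (fun x => R (res f a false) x * R g x + R (res f a true) x * R g x)
          = fun x => R f x * R g x + R f (fl x a) * R g x := by
        funext x
        rw [← add_mul, R_res f a x, add_mul]
      rw [this, E_add]
      congr 1
      rw [← E_fl (fun x => R f x * R g (fl x a)) a]
      congr 1
      funext x
      rw [fl_fl]
    have hdiff : |E (fun x => R f x * R g x) - E (fun x => R f x * R g (fl x a))| ≤ th := by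
      rw [← E_sub]
      refine (abs_E_le _).trans ?_
      refine le_trans ?_ (hg a)
      unfold Inf
      apply E_mono
      intro x
      rw [← mul_sub, abs_mul, absR, abs_of_nonneg (R_nonneg f x)]
      have := R_le f x
      split_ifs <;> simp_all
    have hsum := abs_le.mp ih0
    have hsum1 := abs_le.mp ih1
    have hd := abs_le.mp hdiff
    have eF2 : E (R (res f a false)) * E (R g) + E (R (res f a true)) * E (R g)
        = 2 * (E (R f) * E (R g)) := by
      rw [← add_mul, eF, mul_assoc]
    push_cast
    rw [abs_le]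
    constructor <;> linarith [hsum.1, hsum.2, hsum1.1, hsum1.2, hd.1, hd.2, eF2, eFG]

theorem tot_eq {n : ℕ} (f : Q n → Bool) (w : Q n → ℝ)
    (hw : ∀ x i, i ∈ Sens f x → w x + w (fl x i) = 1) :
    tot f = 2 * E (fun x => ((Sens f x).card : ℝ) * w x) := by
  have hmem : ∀ x i, i ∈ Sens f (fl x i) ↔ i ∈ Sens f x := by
    intro x i
    unfold Sens
    simp only [mem_filter, mem_univ, true_and]
    rw [fl_fl]
    exact ne_comm
  have hcard : ∀ x, ((Sens f x).card : ℝ) = ∑ i, if i ∈ Sens f x then (1:ℝ) else 0 := by
    intro x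
    rw [Finset.sum_ite_mem, univ_inter, Finset.sum_const, nsmul_eq_mul, mul_one]
  have hE : ∀ u : Q n → Fin n → ℝ, E (fun x => ∑ i, u x i) = ∑ i, E (fun x => u x i) := by
    intro u
    unfold E
    rw [Finset.sum_comm, Finset.sum_div]
  unfold tot
  have h1 : (fun x => ((Sens f x).card : ℝ)) = fun x => ∑ i, if i ∈ Sens f x then (1:ℝ) else 0 := by
    funext x; exact hcard x
  have h2 : (fun x => ((Sens f x).card : ℝ) * w x)
      = fun x => ∑ i, (if i ∈ Sens f x then (1:ℝ) else 0) * w x := by
    funext x; rw [hcard x, Finset.sum_mul]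
  rw [h2, hE, h1, hE, Finset.mul_sum]
  apply Finset.sum_congr rfl
  intro i _
  have h3 : E (fun x => (if i ∈ Sens f x then (1:ℝ) else 0) * w x)
      = E (fun x => (if i ∈ Sens f x then (1:ℝ) else 0) * w (fl x i)) := by
    rw [← E_fl (fun x => (if i ∈ Sens f x then (1:ℝ) else 0) * w x) i]
    congr 1
    funext x
    simp only [hmem x i]
  have h4 : 2 * E (fun x => (if i ∈ Sens f x then (1:ℝ) else 0) * w x)
      = E (fun x => (if i ∈ Sens f x then (1:ℝ) else 0) * w x)
        + E (fun x => (if i ∈ Sens f x then (1:ℝ) else 0) * w (fl x i)) := by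
    rw [← h3]; ring
  rw [h4, ← E_add]
  congr 1
  funext x
  by_cases h : i ∈ Sens f x
  · simp only [h, if_true, one_mul]
    exact (hw x i h).symm
  · simp [h]

theorem tot_le {n : ℕ} (k : ℕ) (f : Q n → Bool) (hk : SB f k) (w : Q n → ℝ)
    (hw0 : ∀ x, 0 ≤ w x) (hw : ∀ x i, i ∈ Sens f x → w x + w (fl x i) = 1) :
    tot f ≤ 2 * k * E w := by
  rw [tot_eq f w hw]
  have : E (fun x => ((Sens f x).card : ℝ) * w x) ≤ k * E w := by
    rw [← E_mul_left]
    apply E_mono
    intro x
    exact mul_le_mul_of_nonneg_right (by exact_mod_cast hk x) (hw0 x)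
  nlinarith

theorem taskOsss : TaskOsss := by
  intro n D k f θ hθ hD hk hI
  have h1 := osss f θ hθ hI D f hD
  have h2 : E (fun x => R f x * R f x) = E (R f) := by
    congr 1
    funext x
    exact R_sq f x
  rw [h2] at h1
  have hs : ∀ x i, i ∈ Sens f x → R f x + R f (fl x i) = 1 := by
    intro x i hi
    unfold Sens at hi
    simp only [mem_filter, mem_univ, true_and] at hi
    unfold R
    cases h3 : f x <;> cases h4 : f (fl x i) <;> simp_all
  have t1 := tot_le k f hk (R f) (R_nonneg f) hs
  have t2 := tot_le k f hk (fun x => 1 - R f x) (fun x => by linarith [R_le f x])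
    (fun x i hi => by have := hs x i hi; linarith)
  rw [E_sub, E_const] at t2
  have hp0 : 0 ≤ E (R f) := by
    rw [← E_const (n := n) 0]
    exact E_mono (R_nonneg f)
  have hp1 : E (R f) ≤ 1 := by
    rw [← E_const (n := n) 1]
    exact E_mono (R_le f)
  set p := E (R f) with hp
  have h3 : p - p * p ≤ D * θ / 2 := (abs_le.mp h1).2
  have hk0 : (0:ℝ) ≤ k := Nat.cast_nonneg k
  have a1 : (1 - p) * tot f ≤ (1 - p) * (2 * k * p) :=
    mul_le_mul_of_nonneg_left t1 (by linarith)
  have a2 : p * tot f ≤ p * (2 * k * (1 - p)) := mul_le_mul_of_nonneg_left t2 hp0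
  have a3 : tot f ≤ 4 * k * (p - p * p) := by nlinarith
  have a4 : 4 * k * (p - p * p) ≤ 4 * k * (D * θ / 2) :=
    mul_le_mul_of_nonneg_left h3 (by positivity)
  calc tot f ≤ 4 * k * (p - p * p) := a3
    _ ≤ 4 * k * (D * θ / 2) := a4
    _ = 2 * k * D * θ := by ring

end H184J.TOsss

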