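import Pool.Agent.H184J.Stmts

set_option autoImplicit false

namespace H184J.TPhi

open Finset

theorem bin_ge (p : ℝ) (h0 : 0 ≤ p) (h1 : p ≤ 1 / 2) : 2 * p * Real.log 2 ≤ Real.binEntropy p := by
  have hc := Real.strictConcave_binEntropy.concaveOn
  have h := hc.2 (show (0 : ℝ) ∈ Set.Icc (0 : ℝ) 1 by norm_num)
    (show (2⁻¹ : ℝ) ∈ Set.Icc (0 : ℝ) 1 by norm_num)
    (show (0 : ℝ) ≤ 1 - 2 * p by linarith) (show (0 : ℝ) ≤ 2 * p by linarith) (by ring)
  simp only [smul_eq_mul, Real.binEntropy_zero, Real.binEntropy_two_inv, mul_zero, zero_add] at h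
  have e : 2 * p * 2⁻¹ = p := by ring
  rw [e] at h
  exact h

theorem main (a b : ℝ) (ha : 0 ≤ b) (hab : b ≤ a) :
    Real.negMulLog ((a + b) / 2) ≤ (1 / 2) * Real.negMulLog a + (1 / 2) * Real.negMulLog b +
    (1 / 2) * Real.log 2 * (a - b) := by
  rcases eq_or_lt_of_le (ha.trans hab) with h | h
  · have hb : b = 0 := by linarith
    rw [← h, hb]; simp
  · set s := a + b with hs
    have hs0 : 0 < s := by linarith
    set p := b / s with hp
    have hp0 : 0 ≤ p := by positivity
    have hp1 : p ≤ 1 / 2 := by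
      rw [hp, div_le_div_iff₀ hs0 (by norm_num)]; linarith
    have hb : b = s * p := by rw [hp]; field_simp
    have hav : a = s * (1 - p) := by
      have : s * (1 - p) = s - s * p := by ring
      rw [this, ← hb]; rw [hs]; ring
    have e1 : Real.negMulLog a = (1 - p) * Real.negMulLog s + s * Real.negMulLog (1 - p) := by
      rw [hav, Real.negMulLog_mul]
    have e2 : Real.negMulLog b = p * Real.negMulLog s + s * Real.negMulLog p := by
      rw [hb, Real.negMulLog_mul]
    have e3 : Real.negMulLog (s / 2) = 2⁻¹ * Real.negMulLog s + s * (2⁻¹ * Real.log 2) := by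
      rw [div_eq_mul_inv, Real.negMulLog_mul]
      congr 2
      rw [Real.negMulLog, Real.log_inv]; ring
    have e4 := bin_ge p hp0 hp1
    rw [Real.binEntropy_eq_negMulLog_add_negMulLog_one_sub] at e4
    have e5 : a - b = s * (1 - 2 * p) := by
      rw [hav, hb]; ring
    rw [e3, e5, e1, e2]
    have e6 := mul_le_mul_of_nonneg_left e4 hs0.le
    nlinarith

theorem taskPhi : TaskPhi := by
  intro a b ha hb
  rcases le_total b a with h | h
  · rw [abs_of_nonneg (by linarith)]
    exact main a b hb h
  · have := main b a ha h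
    rw [abs_of_nonpos (by linarith), add_comm a b]
    linarith

end H184J.TPhi
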