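import Pool.Agent.H184J.Stmts

/-! Task TaskRank of project H184-SENS (written by helper880). -/

set_option autoImplicit false

namespace H184J.TRank

open Finset H184J

variable {n : ℕ}

theorem fl_fl (x : Q n) (i : Fin n) : fl (fl x i) i = x := by
  unfold fl
  funext k
  by_cases h : k = i
  · subst h; simp
  · simp [h]

theorem fl_comm (x : Q n) (i j : Fin n) : fl (fl x i) j = fl (fl x j) i := by
  unfold fl
  funext k
  by_cases h : i = j
  · subst h; rfl
  · by_cases h1 : k = i
    · subst h1
      simp [h]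
    · by_cases h2 : k = j
      · subst h2
        simp [Ne.symm h]
      · simp [h1, h2]

theorem mem_Sens {f : Q n → Bool} {x : Q n} {i : Fin n} : i ∈ Sens f x ↔ f (fl x i) ≠ f x := by
  unfold Sens
  simp

theorem Sens_fl {f : Q n → Bool} {x : Q n} {i : Fin n} : i ∈ Sens f (fl x i) ↔ i ∈ Sens f x := by
  rw [mem_Sens, mem_Sens, fl_fl]
  exact ne_comm

theorem bef_fl (T : Tr n) (x : Q n) (i j : Fin n) : bef T (fl x i) i j ↔ bef T x i j := by
  induction T with
  | leaf => exact Iff.rfl
  | node a l t ihl iht =>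
    unfold bef
    by_cases h : a = i
    · simp [h]
    · have : fl x i a = x a := by
        unfold fl
        rw [Function.update_of_ne h]
      rw [this, ihl, iht]

theorem bef_asymm (T : Tr n) (x : Q n) (i j : Fin n) : bef T x i j → ¬ bef T x j i := by
  induction T with
  | leaf => intro h; exact h.elim
  | node a l t ihl iht =>
    intro h1 h2
    unfold bef at h1 h2
    obtain ⟨ha, h1⟩ := h1
    obtain ⟨hb, h2⟩ := h2
    rcases h1 with h1 | ⟨hx, h1⟩ | ⟨hx, h1⟩
    · exact hb h1
    · rcases h2 with h2 | ⟨hy, h2⟩ | ⟨hy, h2⟩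
      · exact ha h2
      · exact ihl h1 h2
      · rw [hx] at hy; exact absurd hy (by simp)
    · rcases h2 with h2 | ⟨hy, h2⟩ | ⟨hy, h2⟩
      · exact ha h2
      · rw [hx] at hy; exact absurd hy (by simp)
      · exact iht h1 h2

open Classical in
/-- sensitive coordinates before `i` -/
noncomputable def B (T : Tr n) (f : Q n → Bool) (x : Q n) (i : Fin n) : Finset (Fin n) :=
  (Sens f x).filter (fun j => bef T x i j)

theorem mem_B {T : Tr n} {f : Q n → Bool} {x : Q n} {i j : Fin n} :
    j ∈ B T f x i ↔ j ∈ Sens f x ∧ bef T x i j := by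
  classical
  unfold B
  rw [mem_filter]

theorem exactly_one {f : Q n → Bool} {x : Q n} {i j : Fin n} (h1 : i ∈ Sens f x)
    (h2 : i ∉ Sens f (fl x j)) : j ∈ Sens f x ∨ j ∈ Sens f (fl x i) := by
  rw [mem_Sens] at h1 h2
  rw [mem_Sens, mem_Sens]
  push Not at h2
  by_contra h
  push Not at h
  obtain ⟨h3, h4⟩ := h
  rw [fl_comm] at h4
  apply h1
  rw [← h4, h2, h3]

theorem sum_fl (u : Q n → ℝ) (i : Fin n) : ∑ x, u (fl x i) = ∑ x, u x := by
  have : Function.Involutive (fun x : Q n => fl x i) := fun x => fl_fl x i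
  exact Equiv.sum_comp this.toPerm u

theorem E_mono {u v : Q n → ℝ} (h : ∀ x, u x ≤ v x) : E u ≤ E v := by
  unfold E
  exact div_le_div_of_nonneg_right (sum_le_sum fun x _ => h x) (by positivity)

theorem E_add (u v : Q n → ℝ) : E (fun x => u x + v x) = E u + E v := by
  unfold E
  rw [sum_add_distrib, add_div]

theorem E_fl (u : Q n → ℝ) (i : Fin n) : E (fun x => u (fl x i)) = E u := by
  unfold E
  rw [sum_fl]

theorem E_sum (V : Finset (Fin n)) (u : Fin n → Q n → ℝ) :
    ∑ i ∈ V, E (u i) = E (fun x => ∑ i ∈ V, u i x) := by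
  unfold E
  rw [← sum_div, sum_comm]

theorem A_le (T : Tr n) (f : Q n → Bool) (i : Fin n) :
    A T f i ≤ 2 * E (fun x => if i ∈ Sens f x then ((B T f x i).card : ℝ) else 0) := by
  classical
  have h1 : A T f i ≤ E (fun x => (if i ∈ Sens f x then ((B T f x i).card : ℝ) else 0) +
      (if i ∈ Sens f (fl x i) then ((B T f (fl x i) i).card : ℝ) else 0)) := by
    unfold A
    apply E_mono
    intro x
    by_cases hi : i ∈ Sens f x
    · rw [if_pos hi, if_pos hi, if_pos (Sens_fl.2 hi)]
      have hsub : (univ.filter (fun j => bef T x i j ∧ i ∉ Sens f (fl x j))) ⊆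
          B T f x i ∪ B T f (fl x i) i := by
        intro j hj
        rw [mem_filter] at hj
        obtain ⟨_, hj1, hj2⟩ := hj
        rw [mem_union, mem_B, mem_B, bef_fl]
        rcases exactly_one hi hj2 with h | h
        · exact Or.inl ⟨h, hj1⟩
        · exact Or.inr ⟨h, hj1⟩
      have := (card_le_card hsub).trans (card_union_le _ _)
      exact_mod_cast this
    · rw [if_neg hi, if_neg hi, if_neg (fun h => hi (Sens_fl.1 h))]
      simp
  refine h1.trans ?_
  rw [E_add, E_fl (fun x => if i ∈ Sens f x then ((B T f x i).card : ℝ) else 0) i]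
  linarith

theorem pairs (T : Tr n) (x : Q n) (W : Finset (Fin n)) :
    ∃ P : Finset (Fin n × Fin n), (∀ i ∈ W, ∀ j ∈ W, bef T x i j → (i, j) ∈ P) ∧
      2 * P.card ≤ W.card * (W.card - 1) := by
  classical
  refine ⟨W.offDiag.filter (fun p => bef T x p.1 p.2), ?_, ?_⟩
  · intro i hi j hj h
    rw [mem_filter, mem_offDiag]
    refine ⟨⟨hi, hj, ?_⟩, h⟩
    intro hij
    simp only at hij
    subst hij
    exact bef_asymm T x _ _ h h
  · set P := W.offDiag.filter (fun p => bef T x p.1 p.2) with hP
    have h1 : (P.image Prod.swap).card = P.card :=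
      card_image_of_injective _ Prod.swap_injective
    have h2 : Disjoint P (P.image Prod.swap) := by
      rw [disjoint_left]
      intro p hp hp2
      rw [mem_image] at hp2
      obtain ⟨q, hq, rfl⟩ := hp2
      rw [hP, mem_filter] at hp hq
      exact bef_asymm T x _ _ hq.2 hp.2
    have h3 : P ∪ P.image Prod.swap ⊆ W.offDiag := by
      intro p hp
      rw [mem_union] at hp
      rcases hp with hp | hp
      · exact (mem_filter.1 hp).1
      · rw [mem_image] at hp
        obtain ⟨q, hq, rfl⟩ := hp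
        have := (mem_filter.1 hq).1
        rw [mem_offDiag] at this ⊢
        exact ⟨this.2.1, this.1, fun h => this.2.2 h.symm⟩
    have h4 := card_le_card h3
    rw [card_union_of_disjoint h2, h1, offDiag_card] at h4
    have h5 : W.card * W.card - W.card = W.card * (W.card - 1) := by
      rw [Nat.mul_sub, mul_one]
    omega

theorem count (T : Tr n) (f : Q n → Bool) (V : Finset (Fin n)) (x : Q n) :
    ∑ i ∈ V, (if i ∈ Sens f x then ((B T f x i).card : ℝ) else 0) ≤
      ((V ∩ Sens f x).card * ((V ∩ Sens f x).card - 1 : ℝ)) / 2 +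
        ((V ∩ Sens f x).card : ℝ) * ((Sens f x \ V).card : ℝ) := by
  classical
  set W := V ∩ Sens f x with hW
  rw [← sum_filter]
  have hf : V.filter (fun i => i ∈ Sens f x) = W := by
    rw [hW, filter_mem_eq_inter]
  rw [hf]
  obtain ⟨P, hP1, hP2⟩ := pairs T x W
  have h1 : ∑ i ∈ W, ((B T f x i).card : ℝ) ≤ ((P ∪ W ×ˢ (Sens f x \ V)).card : ℝ) := by
    have : ∑ i ∈ W, (B T f x i).card = (W.sigma (fun i => B T f x i)).card := by
      rw [card_sigma]
    have h2 : (W.sigma (fun i => B T f x i)).card ≤ (P ∪ W ×ˢ (Sens f x \ V)).card := by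
      apply card_le_card_of_injOn (fun p : (Σ _ : Fin n, Fin n) => (p.1, p.2))
      · rintro ⟨i, j⟩ hp
        rw [mem_coe, mem_sigma, mem_B] at hp
        simp only at hp
        obtain ⟨hi, hj, hb⟩ := hp
        rw [mem_coe, mem_union]
        by_cases hjV : j ∈ V
        · left
          exact hP1 i hi j (by rw [hW, mem_inter]; exact ⟨hjV, hj⟩) hb
        · right
          rw [mem_product, mem_sdiff]
          exact ⟨hi, hj, hjV⟩
      · rintro ⟨i, j⟩ _ ⟨i', j'⟩ _ h
        simp only [Prod.mk.injEq] at h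
        obtain ⟨rfl, rfl⟩ := h
        rfl
    rw [← this] at h2
    exact_mod_cast h2
  have h3 : ((P ∪ W ×ˢ (Sens f x \ V)).card : ℝ) ≤ (P.card : ℝ) +
      (W.card : ℝ) * ((Sens f x \ V).card : ℝ) := by
    have := card_union_le P (W ×ˢ (Sens f x \ V))
    rw [card_product] at this
    exact_mod_cast this
  have h4 : 2 * (P.card : ℝ) ≤ (W.card : ℝ) * ((W.card : ℝ) - 1) := by
    rcases Nat.eq_zero_or_pos W.card with h0 | h0
    · rw [h0] at hP2 ⊢
      have : P.card = 0 := by omega
      rw [this]
      simp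
    · have : ((W.card - 1 : ℕ) : ℝ) = (W.card : ℝ) - 1 := by
        rw [Nat.cast_sub h0]; simp
      rw [← this]
      exact_mod_cast hP2
  linarith

theorem taskRank : TaskRank := by
  intro n f T V
  have h1 : ∑ i ∈ V, A T f i ≤
      ∑ i ∈ V, 2 * E (fun x => if i ∈ Sens f x then ((B T f x i).card : ℝ) else 0) :=
    sum_le_sum fun i _ => A_le T f i
  refine h1.trans ?_
  rw [← mul_sum, E_sum]
  refine mul_le_mul_of_nonneg_left ?_ (by norm_num)
  unfold X2 Y2
  rw [← E_add]
  exact E_mono fun x => count T f V x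

end H184J.TRank
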