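import Pool.Agent.H184J.TSub

set_option autoImplicit false

namespace H184J.TSimon

open Finset H184J H184J.TSub

variable {n : ℕ}

theorem sum_fl (u : Q n → ℝ) (a : Fin n) : ∑ x, u (fl x a) = ∑ x, u x := by
  have hinv : Function.Involutive (fun x : Q n => fl x a) := fun x => fl_fl x a
  exact Equiv.sum_comp hinv.toPerm u

theorem sum_res (u : Q n → ℝ) (a : Fin n) :
    ∑ x, u (Function.update x a false) + ∑ x, u (Function.update x a true) = 2 * ∑ x, u x := by
  have h : ∀ x : Q n, u (Function.update x a false) + u (Function.update x a true) =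
      u x + u (fl x a) := by
    intro x
    cases hx : x a
    · have e1 : Function.update x a false = x := by rw [← hx]; exact Function.update_eq_self _ _
      have e2 : Function.update x a true = fl x a := by unfold fl; rw [hx]; rfl
      rw [e1, e2]
    · have e1 : Function.update x a true = x := by rw [← hx]; exact Function.update_eq_self _ _
      have e2 : Function.update x a false = fl x a := by unfold fl; rw [hx]; rfl
      rw [e1, e2]; ring
  rw [← sum_add_distrib, sum_congr rfl (fun x _ => h x), sum_add_distrib, sum_fl]
  ring

theorem E_res (u : Q n → ℝ) (a : Fin n) :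
    E u = (1 / 2) * (E (fun x => u (Function.update x a false)) +
      E (fun x => u (Function.update x a true))) := by
  have h := sum_res u a
  unfold E
  rw [← add_div, h]
  ring

theorem Inf_res (f : Q n → Bool) {a i : Fin n} (h : i ≠ a) :
    Inf f i = (1 / 2) * (Inf (res f a false) i + Inf (res f a true) i) := by
  unfold Inf
  rw [E_res _ a]
  have key : ∀ b, (fun x : Q n => if i ∈ Sens f (Function.update x a b) then (1 : ℝ) else 0) =
      (fun x => if i ∈ Sens (res f a b) x then 1 else 0) := by
    intro b
    funext x
    rw [Sens_res]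
    simp [h]
  rw [key, key]

theorem E_nonneg {u : Q n → ℝ} (h : ∀ x, 0 ≤ u x) : 0 ≤ E u :=
  div_nonneg (sum_nonneg fun x _ => h x) (by positivity)

theorem Inf_nonneg (f : Q n → Bool) (i : Fin n) : 0 ≤ Inf f i :=
  E_nonneg fun x => by split_ifs <;> norm_num

theorem eq_of_irrelevant {f : Q n → Bool} (s : Finset (Fin n)) (hs : ∀ a ∈ s, a ∉ Rel f) :
    ∀ x y : Q n, (∀ j, j ∉ s → x j = y j) → f x = f y := by
  induction s using Finset.induction_on with
  | empty =>
    intro x y h
    congr 1
    funext j
    exact h j (notMem_empty _)
  | insert a s ha ih =>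
    intro x y h
    have hs' : ∀ b ∈ s, b ∉ Rel f := fun b hb => hs b (mem_insert_of_mem hb)
    have h1 : f x = f (Function.update y a (x a)) := by
      apply ih hs'
      intro j hj
      by_cases hja : j = a
      · subst hja; simp
      · rw [Function.update_of_ne hja]
        exact h j (by simp [hja, hj])
    rw [h1]
    by_cases hxy : x a = y a
    · rw [hxy, Function.update_eq_self]
    · have h2 : Function.update y a (x a) = fl y a := by
        unfold fl
        congr 1
        revert hxy
        cases x a <;> cases y a <;> simp
      rw [h2]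
      by_contra hne
      exact hs a (mem_insert_self _ _) ((mem_Rel _ _).2 ⟨y, (mem_Sens _ _ _).2 hne⟩)

theorem Inf_eq_one {f : Q n → Bool} {i : Fin n} (hi : i ∈ Rel f)
    (h : ∀ a, a ≠ i → a ∉ Rel f) : Inf f i = 1 := by
  obtain ⟨x0, hx0⟩ := (mem_Rel _ _).1 hi
  have hdep : ∀ x y : Q n, x i = y i → f x = f y := by
    intro x y hxy
    refine eq_of_irrelevant (univ.erase i) (fun a ha => h a (mem_erase.1 ha).1) x y ?_
    intro j hj
    have : j = i := by simpa using hj
    rw [this]; exact hxy
  have hall : ∀ x, i ∈ Sens f x := by
    intro x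
    rw [mem_Sens] at hx0 ⊢
    by_cases hx : x i = x0 i
    · have e1 : f x = f x0 := hdep _ _ hx
      have e2 : f (fl x i) = f (fl x0 i) := hdep _ _ (by rw [fl_same, fl_same, hx])
      rw [e1, e2]; exact hx0
    · have hx' : x i = !x0 i := by
        revert hx
        cases x i <;> cases x0 i <;> simp
      have e1 : f x = f (fl x0 i) := hdep _ _ (by rw [fl_same, hx'])
      have e2 : f (fl x i) = f x0 := hdep _ _ (by rw [fl_same, hx']; simp)
      rw [e1, e2]; exact fun h => hx0 h.symm
  unfold Inf E
  simp [hall]

theorem taskSimon : TaskSimon := by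
  intro n f i hi
  induction hm : (Rel f).card using Nat.strong_induction_on generalizing f with
  | _ m ih =>
    by_cases hex : ∃ a, a ≠ i ∧ a ∈ Rel f
    · obtain ⟨a, hai, haR⟩ := hex
      have hstep := taskSub n f a i (Ne.symm hai) hi
      have key : ∀ b, (if i ∈ Rel (res f a b) then (1 / 2 : ℝ) ^ (r (res f a b) i) else 0) ≤
          Inf (res f a b) i := by
        intro b
        split_ifs with hb
        · refine ih _ ?_ (res f a b) hb rfl
          rw [← hm]
          calc (Rel (res f a b)).card ≤ ((Rel f).erase a).card := card_le_card (Rel_res_subset _ _ _)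
            _ < (Rel f).card := card_erase_lt_of_mem haR
        · exact Inf_nonneg _ _
      rw [Inf_res f (Ne.symm hai)]
      have k0 := key false
      have k1 := key true
      linarith
    · push Not at hex
      rw [Inf_eq_one hi (fun a ha => hex a ha)]
      exact pow_le_one₀ (by norm_num) (by norm_num)

theorem taskTree : TaskTree := by
  intro n f θ hθ
  induction hm : (Rel f).card using Nat.strong_induction_on generalizing f with
  | _ m ih =>
    by_cases hex : ∃ a, θ ≤ Inf f a
    · obtain ⟨a, ha⟩ := hex
      have haR : a ∈ Rel f := by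
        by_contra hne
        have : Inf f a = 0 := by
          unfold Inf E
          have hz : ∀ x, a ∉ Sens f x := fun x hx => hne ((mem_Rel _ _).2 ⟨x, hx⟩)
          simp [hz]
        linarith
      have hlt : ∀ b, (Rel (res f a b)).card < m := by
        intro b
        rw [← hm]
        calc (Rel (res f a b)).card ≤ ((Rel f).erase a).card := card_le_card (Rel_res_subset _ _ _)
          _ < (Rel f).card := card_erase_lt_of_mem haR
      obtain ⟨l, hl⟩ := ih _ (hlt false) (res f a false) rfl
      obtain ⟨t, ht⟩ := ih _ (hlt true) (res f a true) rfl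
      exact ⟨Tr.node a l t, ha, hl, ht⟩
    · push Not at hex
      exact ⟨Tr.leaf, hex⟩

end H184J.TSimon
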