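import Pool.Agent.H184J.Stmts

set_option autoImplicit false

namespace H184J.TSub

open Finset H184J

variable {n : ℕ}

theorem fl_same (x : Q n) (i : Fin n) : fl x i i = !x i := by simp [fl]

theorem fl_ne (x : Q n) {i j : Fin n} (h : j ≠ i) : fl x i j = x j := by simp [fl, h]

theorem fl_fl (x : Q n) (i : Fin n) : fl (fl x i) i = x := by
  funext j
  by_cases h : j = i
  · subst h; simp [fl]
  · simp [fl, h]

theorem update_fl_same (x : Q n) (a : Fin n) (b : Bool) :
    Function.update (fl x a) a b = Function.update x a b := by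
  simp [fl]

theorem update_fl_ne (x : Q n) {a j : Fin n} (h : j ≠ a) (b : Bool) :
    Function.update (fl x j) a b = fl (Function.update x a b) j := by
  funext k
  by_cases hk : k = a
  · subst hk
    simp [fl, Ne.symm h]
  · by_cases hkj : k = j
    · subst hkj
      simp [fl, hk]
    · simp [fl, hk, hkj]

theorem update_not (x : Q n) (a : Fin n) : Function.update x a (!x a) = fl x a := rfl

theorem mem_Sens (f : Q n → Bool) (x : Q n) (i : Fin n) : i ∈ Sens f x ↔ f (fl x i) ≠ f x := by
  simp [Sens]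

theorem mem_Rel (f : Q n → Bool) (i : Fin n) : i ∈ Rel f ↔ ∃ x, i ∈ Sens f x := by
  simp [Rel]

theorem Sens_res (f : Q n → Bool) (a : Fin n) (b : Bool) (x : Q n) :
    Sens (res f a b) x = (Sens f (Function.update x a b)).erase a := by
  ext j
  rw [mem_erase, mem_Sens, mem_Sens]
  by_cases h : j = a
  · subst h
    simp [res, update_fl_same]
  · simp only [res, update_fl_ne x h]
    simp [h]

theorem mem_Sens_fl (f : Q n → Bool) (x : Q n) (i : Fin n) :
    i ∈ Sens f (fl x i) ↔ i ∈ Sens f x := by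
  rw [mem_Sens, mem_Sens, fl_fl]
  exact ne_comm

theorem ne_of_mem_Rel_res {f : Q n → Bool} {a j : Fin n} {b : Bool} (h : j ∈ Rel (res f a b)) :
    j ≠ a := by
  obtain ⟨x, hx⟩ := (mem_Rel _ _).1 h
  rw [Sens_res] at hx
  exact (mem_erase.1 hx).1

theorem Rel_res_subset (f : Q n → Bool) (a : Fin n) (b : Bool) :
    Rel (res f a b) ⊆ (Rel f).erase a := by
  intro j hj
  obtain ⟨x, hx⟩ := (mem_Rel _ _).1 hj
  rw [Sens_res] at hx
  exact mem_erase.2 ⟨(mem_erase.1 hx).1, (mem_Rel _ _).2 ⟨_, (mem_erase.1 hx).2⟩⟩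

theorem le_r {f : Q n → Bool} {j : Fin n} {x : Q n} (h : j ∈ Sens f x) :
    (Sens f x).card + (Sens f (fl x j)).card - 2 ≤ r f j := by
  unfold r
  exact Finset.le_sup (f := fun x => (Sens f x).card + (Sens f (fl x j)).card - 2)
    (mem_filter.2 ⟨mem_univ _, h⟩)

theorem exists_r {f : Q n → Bool} {j : Fin n} (h : j ∈ Rel f) :
    ∃ x, j ∈ Sens f x ∧ r f j = (Sens f x).card + (Sens f (fl x j)).card - 2 := by
  obtain ⟨x0, hx0⟩ := (mem_Rel _ _).1 h
  have hne : (univ.filter (fun x => j ∈ Sens f x)).Nonempty := ⟨x0, mem_filter.2 ⟨mem_univ _, hx0⟩⟩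
  obtain ⟨x, hx, hr⟩ := Finset.exists_mem_eq_sup _ hne
    (fun x => (Sens f x).card + (Sens f (fl x j)).card - 2)
  exact ⟨x, (mem_filter.1 hx).2, hr⟩

/-- the restriction does not increase `r` -/
theorem r_res_le {f : Q n → Bool} {a j : Fin n} {b : Bool} (h : j ∈ Rel (res f a b)) :
    r (res f a b) j ≤ r f j := by
  obtain ⟨x, hx, hr⟩ := exists_r h
  have hja : j ≠ a := ne_of_mem_Rel_res h
  rw [hr, Sens_res, Sens_res, update_fl_ne x hja]
  rw [Sens_res] at hx
  have h1 := le_r (mem_erase.1 hx).2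
  have h2 := card_erase_le (s := Sens f (Function.update x a b)) (a := a)
  have h3 := card_erase_le (s := Sens f (fl (Function.update x a b) j)) (a := a)
  omega

/-- if `j` is irrelevant in the other restriction, `r` drops -/
theorem r_res_lt {f : Q n → Bool} {a j : Fin n} {b : Bool} (h : j ∈ Rel (res f a b))
    (h' : j ∉ Rel (res f a (!b))) : r (res f a b) j + 1 ≤ r f j := by
  obtain ⟨x, hx, hr⟩ := exists_r h
  have hja : j ≠ a := ne_of_mem_Rel_res h
  have hx' := hx
  have hx2 : j ∈ Sens (res f a b) (fl x j) := (mem_Sens_fl _ _ _).2 hx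
  rw [Sens_res] at hx
  set y := Function.update x a b with hy
  have hjy : j ∈ Sens f y := (mem_erase.1 hx).2
  have h1 := le_r hjy
  have hya : y a = b := by simp [hy]
  have hfla : fl y a = Function.update x a (!b) := by
    unfold fl; rw [hya, hy]; simp
  have hfla2 : fl (fl y j) a = Function.update (fl x j) a (!b) := by
    unfold fl
    have : Function.update y j (!y j) a = b := by
      rw [Function.update_of_ne (Ne.symm hja)]; exact hya
    rw [this]
    funext k
    by_cases hk : k = a
    · subst hk; simp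
    · by_cases hkj : k = j
      · subst hkj; simp [hk, hy]
      · simp [hk, hkj, hy]
  have hirr : f (fl (fl y j) a) = f (fl y a) := by
    rw [hfla, hfla2]
    by_contra hne
    apply h'
    refine (mem_Rel _ _).2 ⟨x, (mem_Sens _ _ _).2 ?_⟩
    exact hne
  have hyj : f (fl y j) ≠ f y := (mem_Sens _ _ _).1 hjy
  have hcard : (Sens f y).card + (Sens f (fl y j)).card =
      ((Sens f y).erase a).card + ((Sens f (fl y j)).erase a).card + 1 := by
    by_cases ha : a ∈ Sens f y
    · have hb : a ∉ Sens f (fl y j) := by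
        rw [mem_Sens] at ha ⊢
        rw [hirr]
        revert ha hyj
        cases f (fl y a) <;> cases f y <;> cases f (fl y j) <;> simp
      have := card_erase_add_one ha
      rw [erase_eq_of_notMem hb]
      omega
    · have hb : a ∈ Sens f (fl y j) := by
        rw [mem_Sens] at ha ⊢
        rw [hirr]
        revert ha hyj
        cases f (fl y a) <;> cases f y <;> cases f (fl y j) <;> simp
      have := card_erase_add_one hb
      rw [erase_eq_of_notMem ha]
      omega
  have hp1 : 1 ≤ ((Sens f y).erase a).card := card_pos.2 ⟨j, mem_erase.2 ⟨hja, hjy⟩⟩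
  have hp2 : 1 ≤ ((Sens f (fl y j)).erase a).card :=
    card_pos.2 ⟨j, mem_erase.2 ⟨hja, (mem_Sens_fl _ _ _).2 hjy⟩⟩
  rw [hr, Sens_res, Sens_res, update_fl_ne x hja, ← hy]
  omega

theorem rel_res_or {f : Q n → Bool} {a j : Fin n} (hja : j ≠ a) (h : j ∈ Rel f) :
    j ∈ Rel (res f a false) ∨ j ∈ Rel (res f a true) := by
  obtain ⟨x, hx⟩ := (mem_Rel _ _).1 h
  have key : j ∈ Rel (res f a (x a)) := by
    refine (mem_Rel _ _).2 ⟨x, ?_⟩
    rw [Sens_res, Function.update_eq_self]
    exact mem_erase.2 ⟨hja, hx⟩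
  cases hxa : x a
  · left; rwa [hxa] at key
  · right; rwa [hxa] at key

theorem taskSub : TaskSub := by
  intro n f a j hja hj
  have hpow : ∀ {p q : ℕ}, p ≤ q → (1 / 2 : ℝ) ^ q ≤ (1 / 2) ^ p := fun h =>
    pow_le_pow_of_le_one (by norm_num) (by norm_num) h
  by_cases h0 : j ∈ Rel (res f a false)
  · by_cases h1 : j ∈ Rel (res f a true)
    · rw [if_pos h0, if_pos h1]
      have e0 := hpow (r_res_le h0)
      have e1 := hpow (r_res_le h1)
      linarith
    · rw [if_pos h0, if_neg h1]
      have e0 := hpow (r_res_lt h0 h1)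
      rw [pow_succ] at e0
      linarith
  · have h1 : j ∈ Rel (res f a true) := (rel_res_or hja hj).resolve_left h0
    rw [if_neg h0, if_pos h1]
    have e0 := hpow (r_res_lt h1 h0)
    rw [pow_succ] at e0
    linarith

end H184J.TSub
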