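import Pool.Agent.H184J.Stmts

set_option autoImplicit false

namespace H184J.TTree

open Finset

theorem rel_res {n : ℕ} (f : Q n → Bool) (a : Fin n) (b : Bool) :
    Rel (res f a b) ⊆ (Rel f).erase a := by
  intro i hi
  simp only [Rel, Sens, mem_filter, mem_univ, true_and] at hi
  obtain ⟨x, hx⟩ := hi
  have hia : i ≠ a := by
    rintro rfl
    apply hx
    simp only [res, fl]
    congr 1
    rw [Function.update_idem]
  rw [mem_erase]
  refine ⟨hia, ?_⟩
  simp only [Rel, Sens, mem_filter, mem_univ, true_and]
  refine ⟨Function.update x a b, ?_⟩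
  have : fl (Function.update x a b) i = Function.update (fl x i) a b := by
    simp only [fl]
    rw [Function.update_comm hia.symm, Function.update_of_ne hia]
  rw [this]
  exact hx

theorem inf_pos {n : ℕ} (f : Q n → Bool) (a : Fin n) (h : 0 < Inf f a) : a ∈ Rel f := by
  by_contra hc
  simp only [Rel, mem_filter, mem_univ, true_and, not_exists] at hc
  have : Inf f a = 0 := by
    unfold Inf E
    simp [hc]
  rw [this] at h
  exact lt_irrefl _ h

theorem aux (n : ℕ) (θ : ℝ) (hθ : 0 < θ) : ∀ (m : ℕ) (f : Q n → Bool), (Rel f).card ≤ m →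
    ∃ T : Tr n, Good θ f T := by
  intro m
  induction m with
  | zero =>
    intro f hf
    refine ⟨Tr.leaf, ?_⟩
    intro i
    by_contra hc
    push Not at hc
    have h1 := inf_pos f i (lt_of_lt_of_le hθ hc)
    have h2 := card_pos.mpr ⟨i, h1⟩
    omega
  | succ m ih =>
    intro f hf
    by_cases h : ∀ i, Inf f i < θ
    · exact ⟨Tr.leaf, h⟩
    · push Not at h
      obtain ⟨a, ha⟩ := h
      have h1 := inf_pos f a (lt_of_lt_of_le hθ ha)
      have h2 : ∀ b, (Rel (res f a b)).card ≤ m := by
        intro b
        have h3 := card_le_card (rel_res f a b)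
        rw [card_erase_of_mem h1] at h3
        omega
      obtain ⟨l, hl⟩ := ih (res f a false) (h2 false)
      obtain ⟨t, ht⟩ := ih (res f a true) (h2 true)
      exact ⟨Tr.node a l t, ha, hl, ht⟩

theorem taskTree : TaskTree := fun n f θ hθ => aux n θ hθ _ f le_rfl

end H184J.TTree
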