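import Pool.Agent.H184J.Stmts

set_option autoImplicit false

namespace H184J.TEnt

open Finset

variable {n : ℕ}

theorem mem_Sens (f : Q n → Bool) (x : Q n) (i : Fin n) : i ∈ Sens f x ↔ f (fl x i) ≠ f x := by
  simp [Sens]

theorem update_fl_same (x : Q n) (a : Fin n) (b : Bool) :
    Function.update (fl x a) a b = Function.update x a b := by
  simp [fl]

theorem update_fl_ne (x : Q n) (a i : Fin n) (b : Bool) (h : i ≠ a) :
    Function.update (fl x i) a b = fl (Function.update x a b) i := by
  unfold fl
  rw [Function.update_comm h, Function.update_of_ne h]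

theorem not_mem_Sens_res (f : Q n → Bool) (a : Fin n) (b : Bool) (x : Q n) :
    a ∉ Sens (res f a b) x := by
  rw [mem_Sens, res, update_fl_same]
  simp [res]

theorem mem_Sens_res (f : Q n → Bool) (a : Fin n) (b : Bool) (x : Q n) (i : Fin n) (h : i ≠ a) :
    i ∈ Sens (res f a b) x ↔ i ∈ Sens f (Function.update x a b) := by
  rw [mem_Sens, mem_Sens]
  simp only [res]
  rw [update_fl_ne _ _ _ _ h]

theorem SB_res (f : Q n → Bool) (k : ℕ) (a : Fin n) (b : Bool) (h : SB f k) :
    SB (res f a b) k := by
  intro x
  refine le_trans (Finset.card_le_card ?_) (h (Function.update x a b))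
  intro i hi
  by_cases hia : i = a
  · subst hia
    exact absurd hi (not_mem_Sens_res _ _ _ _)
  · exact (mem_Sens_res _ _ _ _ _ hia).1 hi

theorem fl_fl (x : Q n) (a : Fin n) : fl (fl x a) a = x := by
  unfold fl
  simp

theorem E_add (u v : Q n → ℝ) : E (fun x => u x + v x) = E u + E v := by
  unfold E
  rw [Finset.sum_add_distrib, add_div]

theorem E_mono (u v : Q n → ℝ) (h : ∀ x, u x ≤ v x) : E u ≤ E v := by
  unfold E
  gcongr
  exact h _

theorem E_nonneg (u : Q n → ℝ) (h : ∀ x, 0 ≤ u x) : 0 ≤ E u := by
  unfold E
  exact div_nonneg (Finset.sum_nonneg (fun x _ => h x)) (by positivity)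

theorem E_zero : E (fun _ : Q n => (0 : ℝ)) = 0 := by
  unfold E
  simp

theorem E_sub (u v : Q n → ℝ) : E (fun x => u x - v x) = E u - E v := by
  unfold E
  rw [Finset.sum_sub_distrib, sub_div]

theorem E_sum {ι : Type*} (s : Finset ι) (u : ι → Q n → ℝ) :
    E (fun x => ∑ i ∈ s, u i x) = ∑ i ∈ s, E (u i) := by
  unfold E
  rw [Finset.sum_comm, Finset.sum_div]

theorem E_split (u : Q n → ℝ) (a : Fin n) :
    E u = (E (fun x => u (Function.update x a false)) +
      E (fun x => u (Function.update x a true))) / 2 := by
  rw [← E_add]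
  have h1 : ∀ x : Q n, u (Function.update x a false) + u (Function.update x a true) =
      u x + u (fl x a) := by
    intro x
    by_cases hx : x a = true
    · have h2 : Function.update x a true = x := by
        conv_rhs => rw [← Function.update_eq_self a x]
        rw [hx]
      have h3 : fl x a = Function.update x a false := by
        unfold fl; rw [hx]; rfl
      rw [h2, h3, add_comm]
    · have hx' : x a = false := by simpa using hx
      have h2 : Function.update x a false = x := by
        conv_rhs => rw [← Function.update_eq_self a x]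
        rw [hx']
      have h3 : fl x a = Function.update x a true := by
        unfold fl; rw [hx']; rfl
      rw [h2, h3]
  simp_rw [h1]
  rw [E_add]
  have h4 : E (fun x => u (fl x a)) = E u := by
    unfold E
    congr 1
    exact Fintype.sum_bijective (fun x => fl x a)
      (Function.Involutive.bijective (fun x => fl_fl x a)) _ _ (fun x => rfl)
  rw [h4]
  ring

theorem Inf_nonneg (f : Q n → Bool) (i : Fin n) : 0 ≤ Inf f i :=
  E_nonneg _ (fun x => by split_ifs <;> norm_num)

theorem Inf_le_one (f : Q n → Bool) (i : Fin n) : Inf f i ≤ 1 := by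
  have h : Inf f i ≤ E (fun _ : Q n => (1 : ℝ)) := E_mono _ _ (fun x => by split_ifs <;> norm_num)
  refine h.trans (le_of_eq ?_)
  unfold E
  simp

theorem tot_eq (f : Q n → Bool) : tot f = ∑ i, Inf f i := by
  unfold tot Inf
  rw [← E_sum]
  congr 1
  funext x
  simp

theorem Inf_res_self (f : Q n → Bool) (a : Fin n) (b : Bool) : Inf (res f a b) a = 0 := by
  unfold Inf
  simp only [not_mem_Sens_res, if_false]
  exact E_zero

theorem Inf_split (f : Q n → Bool) (a i : Fin n) (h : i ≠ a) :
    Inf f i = (Inf (res f a false) i + Inf (res f a true) i) / 2 := by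
  unfold Inf
  rw [E_split _ a]
  simp only [mem_Sens_res _ _ _ _ _ h]

theorem A_nonneg (T : Tr n) (f : Q n → Bool) (i : Fin n) : 0 ≤ A T f i := by
  unfold A
  refine E_nonneg _ (fun x => ?_)
  split_ifs
  · positivity
  · exact le_rfl

theorem A_res_self (T : Tr n) (f : Q n → Bool) (a : Fin n) (b : Bool) : A T (res f a b) a = 0 := by
  unfold A
  simp only [not_mem_Sens_res, if_false]
  exact E_zero

/-- a function not depending on `a`: a good tree never queries `a` -/
theorem bef_update (θ : ℝ) (hθ : 0 < θ) (a : Fin n) : ∀ (T : Tr n) (g : Q n → Bool),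
    Good θ g T → (∀ x, a ∉ Sens g x) → ∀ (x : Q n) (b : Bool) (i j : Fin n),
      bef T (Function.update x a b) i j ↔ bef T x i j := by
  intro T
  induction T with
  | leaf => intro g _ _ x b i j; rfl
  | node c l t ihl iht =>
    intro g hG ha x b i j
    obtain ⟨h1, h2, h3⟩ := hG
    have hca : c ≠ a := by
      rintro rfl
      have : Inf g c = 0 := by
        unfold Inf
        simp only [ha, if_false]
        exact E_zero
      linarith
    have hr : ∀ (b' : Bool) (y : Q n), a ∉ Sens (res g c b') y := by
      intro b' y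
      rw [mem_Sens_res _ _ _ _ _ hca.symm]
      exact ha _
    have e1 := ihl _ h2 (hr false) x b i j
    have e2 := iht _ h3 (hr true) x b i j
    simp only [bef]
    rw [e1, e2, Function.update_of_ne hca]

theorem res_sens_swap (f : Q n → Bool) (a i : Fin n) (h : i ≠ a) (b : Bool) (x : Q n) :
    i ∈ Sens f (fl (Function.update x a b) a) ↔ i ∈ Sens (res f a (!b)) x := by
  rw [mem_Sens_res _ _ _ _ _ h]
  have : fl (Function.update x a b) a = Function.update x a (!b) := by
    unfold fl
    simp
  rw [this]

/-- the pointwise inequality -/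
theorem key (θ : ℝ) (hθ : 0 < θ) (f : Q n → Bool) (a i : Fin n) (hi : i ≠ a) (l t T' : Tr n)
    (b : Bool) (hT' : T' = if b then t else l) (hG : Good θ (res f a b) T') (x : Q n)
    [DecidablePred (fun j => bef T' x i j ∧ i ∉ Sens (res f a b) (fl x j))]
    [DecidablePred (fun j => bef (Tr.node a l t) (Function.update x a b) i j ∧
      i ∉ Sens f (fl (Function.update x a b) j))] :
    (if i ∈ Sens (res f a b) x then
      ((univ.filter (fun j => bef T' x i j ∧ i ∉ Sens (res f a b) (fl x j))).card : ℝ) else 0) +
      (if i ∈ Sens (res f a b) x ∧ i ∉ Sens (res f a (!b)) x then (1 : ℝ) else 0) ≤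
    (if i ∈ Sens f (Function.update x a b) then
      ((univ.filter (fun j => bef (Tr.node a l t) (Function.update x a b) i j ∧
        i ∉ Sens f (fl (Function.update x a b) j))).card : ℝ) else 0) := by
  classical
  by_cases hS : i ∈ Sens (res f a b) x
  swap
  · have hS' : i ∉ Sens f (Function.update x a b) := by
      rwa [mem_Sens_res _ _ _ _ _ hi] at hS
    rw [if_neg hS, if_neg (fun h => hS h.1), if_neg hS']
    norm_num
  have hS' : i ∈ Sens f (Function.update x a b) := by
    rwa [mem_Sens_res _ _ _ _ _ hi] at hS
  rw [if_pos hS, if_pos hS']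
  have hbef : ∀ j, bef T' x i j → bef (Tr.node a l t) (Function.update x a b) i j := by
    intro j hj
    have hj' : bef T' (Function.update x a b) i j :=
      (bef_update θ hθ a T' _ hG (not_mem_Sens_res f a b) x b i j).2 hj
    refine ⟨hi.symm, Or.inr ?_⟩
    cases b with
    | false => left; exact ⟨by simp, by simpa [hT'] using hj'⟩
    | true => right; exact ⟨by simp, by simpa [hT'] using hj'⟩
  set B := univ.filter (fun j => bef T' x i j ∧ i ∉ Sens (res f a b) (fl x j)) with hB
  have haB : a ∉ B := by
    rw [hB, mem_filter]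
    rintro ⟨-, -, h⟩
    apply h
    rw [mem_Sens_res _ _ _ _ _ hi, update_fl_same]
    exact hS'
  have hsub : ∀ j ∈ B, bef (Tr.node a l t) (Function.update x a b) i j ∧
        i ∉ Sens f (fl (Function.update x a b) j) := by
    intro j hj
    have hja : j ≠ a := fun h => haB (h ▸ hj)
    rw [hB, mem_filter] at hj
    refine ⟨hbef j hj.2.1, ?_⟩
    rw [← update_fl_ne _ _ _ _ hja, ← mem_Sens_res _ _ _ _ _ hi]
    exact hj.2.2
  by_cases hS2 : i ∈ Sens (res f a (!b)) x
  · rw [if_neg (fun h => h.2 hS2), add_zero]
    norm_cast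
    apply Finset.card_le_card
    intro j hj
    rw [mem_filter]
    exact ⟨mem_univ _, hsub j hj⟩
  · rw [if_pos ⟨hS, hS2⟩]
    have : ((insert a B).card : ℝ) = B.card + 1 := by
      rw [Finset.card_insert_of_notMem haB]
      push_cast
      ring
    rw [← this]
    norm_cast
    apply Finset.card_le_card
    intro j hj
    rw [mem_filter]
    refine ⟨mem_univ _, ?_⟩
    rcases Finset.mem_insert.1 hj with rfl | hj
    · refine ⟨⟨hi.symm, Or.inl rfl⟩, ?_⟩
      rw [res_sens_swap _ _ _ hi]
      exact hS2
    · exact hsub j hj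

theorem A_split (θ : ℝ) (hθ : 0 < θ) (f : Q n → Bool) (a i : Fin n) (hi : i ≠ a) (l t : Tr n)
    (hl : Good θ (res f a false) l) (ht : Good θ (res f a true) t) :
    (A l (res f a false) i + A t (res f a true) i) / 2 +
      |Inf (res f a false) i - Inf (res f a true) i| / 2 ≤ A (Tr.node a l t) f i := by
  classical
  have h1 : A (Tr.node a l t) f i = _ := E_split _ a
  rw [h1]
  have k0 : ∀ x, _ := fun x => key θ hθ f a i hi l t l false (by simp) hl x
  have k1 : ∀ x, _ := fun x => key θ hθ f a i hi l t t true (by simp) ht x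
  have m0 := E_mono _ _ k0
  have m1 := E_mono _ _ k1
  rw [E_add] at m0 m1
  have habs : |Inf (res f a false) i - Inf (res f a true) i| ≤
      E (fun x => if i ∈ Sens (res f a false) x ∧ i ∉ Sens (res f a (!false)) x then (1 : ℝ)
        else 0) +
      E (fun x => if i ∈ Sens (res f a true) x ∧ i ∉ Sens (res f a (!true)) x then (1 : ℝ)
        else 0) := by
    rw [← E_add]
    unfold Inf
    rw [abs_le]
    constructor
    · rw [neg_le_iff_add_nonneg, ← E_sub, ← E_add]
      refine E_nonneg _ (fun x => ?_)
      simp only [Bool.not_false, Bool.not_true]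
      by_cases h1 : i ∈ Sens (res f a false) x <;> by_cases h2 : i ∈ Sens (res f a true) x <;>
        simp [h1, h2]
    · rw [← E_sub]
      refine E_mono _ _ (fun x => ?_)
      simp only [Bool.not_false, Bool.not_true]
      by_cases h1 : i ∈ Sens (res f a false) x <;> by_cases h2 : i ∈ Sens (res f a true) x <;>
        simp [h1, h2]
  have e0 : A l (res f a false) i = _ := rfl
  have e1 : A t (res f a true) i = _ := rfl
  unfold A
  linarith

theorem r_le (f : Q n → Bool) (k : ℕ) (h : SB f k) (i : Fin n) : r f i ≤ 2 * k := by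
  unfold r
  refine Finset.sup_le (fun x _ => ?_)
  have h1 := h x
  have h2 := h (fl x i)
  omega

theorem leaf_bound (hS : TaskSimon) (k : ℕ) (f : Q n → Bool) (hf : SB f k) (i : Fin n) :
    Real.negMulLog (Inf f i) ≤ 2 * k * Real.log 2 * Inf f i := by
  by_cases hi : i ∈ Rel f
  · have h1 := hS n f i hi
    have h2 : (1 / 2 : ℝ) ^ (2 * k) ≤ Inf f i :=
      le_trans (pow_le_pow_of_le_one (by norm_num) (by norm_num) (r_le f k hf i)) h1
    have hpos : 0 < Inf f i := lt_of_lt_of_le (by positivity) h2
    have h3 : Real.log ((1 / 2 : ℝ) ^ (2 * k)) ≤ Real.log (Inf f i) :=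
      Real.log_le_log (by positivity) h2
    rw [Real.log_pow] at h3
    have h4 : Real.log (1 / 2 : ℝ) = - Real.log 2 := by
      rw [one_div, Real.log_inv]
    rw [h4] at h3
    push_cast at h3
    unfold Real.negMulLog
    nlinarith [mul_le_mul_of_nonneg_left h3 hpos.le]
  · have h0 : Inf f i = 0 := by
      have : ∀ x, i ∉ Sens f x := by
        intro x hx
        exact hi (by unfold Rel; rw [mem_filter]; exact ⟨mem_univ _, x, hx⟩)
      unfold Inf
      simp only [this, if_false]
      exact E_zero
    rw [h0]
    simp

theorem taskEnt : TaskEnt := by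
  intro hPhi hSimon n k f θ η T hθ hθ1 hf hG hη V
  have hlog2 : 0 < Real.log 2 := Real.log_pos (by norm_num)
  have hlogθ : 0 ≤ Real.log (1 / θ) := Real.log_nonneg (by rw [le_div_iff₀ hθ]; linarith)
  suffices H : ∀ (T : Tr n) (f : Q n → Bool), SB f k → Good θ f T →
      ∑ i ∈ V, (Real.negMulLog (Inf f i) - Real.log 2 * A T f i - Real.log (1 / θ) * Inf f i) ≤
        2 * k * Real.log 2 * η by
    have := H T f hf hG
    rw [Finset.sum_sub_distrib, Finset.sum_sub_distrib, ← Finset.mul_sum, ← Finset.mul_sum] at this
    linarith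
  intro T
  induction T with
  | leaf =>
    intro f hf hG
    have ht := hη f hf hG
    have h1 : ∀ i ∈ V, Real.negMulLog (Inf f i) - Real.log 2 * A Tr.leaf f i -
        Real.log (1 / θ) * Inf f i ≤ 2 * k * Real.log 2 * Inf f i := by
      intro i _
      have := leaf_bound hSimon k f hf i
      have h2 := mul_nonneg hlog2.le (A_nonneg Tr.leaf f i)
      have h3 := mul_nonneg hlogθ (Inf_nonneg f i)
      linarith
    refine (Finset.sum_le_sum h1).trans ?_
    rw [← Finset.mul_sum]
    refine mul_le_mul_of_nonneg_left ?_ (by positivity)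
    refine le_trans ?_ ht
    rw [tot_eq]
    exact Finset.sum_le_sum_of_subset_of_nonneg (Finset.subset_univ _)
      (fun i _ _ => Inf_nonneg f i)
  | node a l t ihl iht =>
    intro f hf hG
    obtain ⟨h1, h2, h3⟩ := hG
    have i0 := ihl (res f a false) (SB_res f k a false hf) h2
    have i1 := iht (res f a true) (SB_res f k a true hf) h3
    have hstep : ∀ i ∈ V, Real.negMulLog (Inf f i) - Real.log 2 * A (Tr.node a l t) f i -
        Real.log (1 / θ) * Inf f i ≤
        ((Real.negMulLog (Inf (res f a false) i) - Real.log 2 * A l (res f a false) i -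
          Real.log (1 / θ) * Inf (res f a false) i) +
        (Real.negMulLog (Inf (res f a true) i) - Real.log 2 * A t (res f a true) i -
          Real.log (1 / θ) * Inf (res f a true) i)) / 2 := by
      intro i _
      by_cases hia : i = a
      · subst hia
        rw [Inf_res_self, Inf_res_self, A_res_self, A_res_self]
        have hA := mul_nonneg hlog2.le (A_nonneg (Tr.node i l t) f i)
        have hpos : 0 < Inf f i := lt_of_lt_of_le hθ h1
        have h4 : Real.log θ ≤ Real.log (Inf f i) := Real.log_le_log hθ h1
        have h5 : Real.log (1 / θ) = - Real.log θ := by rw [one_div, Real.log_inv]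
        rw [h5]
        simp only [Real.negMulLog_zero]
        unfold Real.negMulLog
        nlinarith [mul_le_mul_of_nonneg_left h4 hpos.le]
      · have hI := Inf_split f a i hia
        have hA := A_split θ hθ f a i hia l t h2 h3
        have hP := hPhi (Inf (res f a false) i) (Inf (res f a true) i) (Inf_nonneg _ _)
          (Inf_nonneg _ _)
        rw [← hI] at hP
        have hA' := mul_le_mul_of_nonneg_left hA hlog2.le
        have hI' : Real.log (1 / θ) * Inf f i = (Real.log (1 / θ) * Inf (res f a false) i +
          Real.log (1 / θ) * Inf (res f a true) i) / 2 := by rw [hI]; ring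
        rw [hI']
        linarith
    refine (Finset.sum_le_sum hstep).trans ?_
    rw [← Finset.sum_div, Finset.sum_add_distrib]
    linarith

end H184J.TEnt
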